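import Pool.Agent.Run7.h61.JT.Fin

/-!
# The binomial law
-/

set_option autoImplicit false
set_option linter.unusedSectionVars false

namespace Run7.h61.JT

open NumberField IsDedekindDomain Finset Polynomial
open Run7.h61.TW Run7.h61.HK Run7.h61.LD
open Run7.h9.BS (prop bsd zetaProd)

theorem card_sum {n : ℕ} (k : ℕ) : Nat.card {e : Fin n → Fin 2 // pt e ∈ {r : Fin n → ℤ | ∑ i, r i = k}} = n.choose k := by
  classical
  have hcase : ∀ i : Fin 2, i = 0 ∨ i = 1 := by decide
  have hval : ∀ e : Fin n → Fin 2, ∑ i, pt e i = ((Finset.univ.filter fun i => e i = 1).card : ℤ) := by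
    intro e
    rw [Finset.card_filter]
    push_cast
    refine Finset.sum_congr rfl fun i _ => ?_
    unfold pt
    rcases hcase (e i) with h | h
    · rw [h]; simp
    · rw [h]; simp
  rw [Nat.card_eq_fintype_card, Fintype.card_subtype]
  have h1 : (Finset.univ.filter fun e : Fin n → Fin 2 => pt e ∈ {r : Fin n → ℤ | ∑ i, r i = k}).card =
      (Finset.powersetCard k (Finset.univ : Finset (Fin n))).card := by
    refine Finset.card_bij' (fun e _ => Finset.univ.filter fun i => e i = 1) (fun s _ => fun i => if i ∈ s then 1 else 0) ?_ ?_ ?_ ?_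
    · intro e he
      have h2 : ∑ i, pt e i = (k : ℤ) := (Finset.mem_filter.1 he).2
      rw [hval] at h2
      rw [Finset.mem_powersetCard]
      exact ⟨Finset.subset_univ _, by exact_mod_cast h2⟩
    · intro s hs
      rw [Finset.mem_filter]
      refine ⟨Finset.mem_univ _, ?_⟩
      show ∑ i, pt (fun i => if i ∈ s then 1 else 0) i = (k : ℤ)
      rw [hval]
      have h2 : (Finset.univ.filter fun i => (if i ∈ s then (1 : Fin 2) else 0) = 1) = s := by
        ext i
        simp
      rw [h2, (Finset.mem_powersetCard.1 hs).2]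
    · intro e _
      funext i
      simp only [Finset.mem_filter, Finset.mem_univ, true_and]
      rcases hcase (e i) with h | h
      · rw [h]; simp
      · rw [h]; simp
    · intro s _
      ext i
      simp
  rw [h1, Finset.card_powersetCard, Finset.card_univ, Fintype.card_fin]

section
variable {K : Type} [Field K] [NumberField K] {n : ℕ} {d : Fin n → 𝓞 K} (hd : ∀ i, d i ≠ 0)
  (hij : ∀ i j, i ≠ j → ¬ IsSquare (algebraMap (𝓞 K) K (d i * d j)))
variable {ι : Type} [Fintype ι] [DecidableEq ι] (ω : Module.Basis ι ℤ (𝓞 K))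

include hd hij in
theorem binomial {θ : ℝ} (hθ : 0 < θ) {ε : ℝ} (hε : 0 < ε) :
    ∃ Z₀ : ℕ, ∀ Z : ℕ, Z₀ ≤ Z → ∀ H : Fin 2 ⊕ Empty → ℕ, (∀ j, Real.exp ((Z : ℝ) ^ (1 + θ)) ≤ H j) →
      ∀ k : ℕ, |prop ω H smooth (fun t => ∑ i, rankGuess Z (twist (d i) t) = (k : ℤ)) - (n.choose k : ℝ) / 2 ^ n| ≤ ε := by
  obtain ⟨Z₀, hZ₀⟩ := coins hd hij ω hθ hε
  refine ⟨Z₀, fun Z hZ H hH k => ?_⟩
  have h := hZ₀ Z hZ H hH {r : Fin n → ℤ | ∑ i, r i = k}
  rw [card_sum] at h
  exact h

end

end Run7.h61.JT
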