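import Pool.Agent.Run7.h876.EN.Pts

/-!
# The zeta function of an elliptic curve over a finite field of odd order
-/

set_option autoImplicit false
set_option linter.unusedSectionVars false

namespace Run7.h61.JT.G1

open Finset Polynomial
open Pool.Agent.H341R2.Sharp
open Run7.h876.EN

section
variable {k : Type} [Field k] [Fintype k] [DecidableEq k]

/-! ### the recursion -/

theorem T_rec (hk : ringChar k ≠ 2) {f : k[X]} (hf : f.Monic) (hd : f.natDegree = 3) (hns : ¬ IsCSq f) :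
    A f 1 = T f 1 ∧ 2 * A f 2 = T f 2 + T f 1 ^ 2 ∧ ∀ n, T f (n + 3) = -(A f 1 * T f (n + 2)) - A f 2 * T f (n + 1) := by
  obtain ⟨r, hr, hlam⟩ := exists_r hk hf (by omega) (fun c h hc => hns ⟨c, h, hc⟩)
  have hA : ∀ n, 3 ≤ n → A f n = 0 := fun n hn => A_eq_zero f r hf hr hlam n (by omega)
  have e1 : A f 1 = T f 1 := by
    have h1 := n_mul_A f 1
    rw [Icc_self, sum_singleton, Nat.sub_self, A_zero] at h1
    simpa using h1
  refine ⟨e1, ?_, ?_⟩
  · have h1 := n_mul_A f 2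
    rw [Finset.sum_Icc_succ_top (by norm_num), Icc_self, sum_singleton] at h1
    norm_num at h1
    rw [A_zero, e1] at h1
    linear_combination h1
  · intro n
    have h1 := n_mul_A f (n + 3)
    rw [hA (n + 3) (by omega), Finset.sum_Icc_succ_top (by omega), Finset.sum_Icc_succ_top (by omega),
      Finset.sum_Icc_succ_top (by omega)] at h1
    have h2 : ∑ m ∈ Icc 1 n, A f (n + 3 - m) * T f m = 0 := by
      refine Finset.sum_eq_zero fun m hm => ?_
      rw [hA _ (by have := (Finset.mem_Icc.1 hm).2; omega), zero_mul]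
    rw [h2] at h1
    have e3 : n + 3 - (n + 1) = 2 := by omega
    have e4 : n + 3 - (n + 1 + 1) = 1 := by omega
    have e5 : n + 3 - (n + 2 + 1) = 0 := by omega
    rw [e3, e4, e5, A_zero] at h1
    have e6 : T f (n + 1 + 1) = T f (n + 2) := rfl
    have e7 : T f (n + 2 + 1) = T f (n + 3) := rfl
    rw [e6, e7] at h1
    linear_combination -h1

theorem T_pow (hk : ringChar k ≠ 2) {f : k[X]} (hf : f.Monic) (hd : f.natDegree = 3) (hns : ¬ IsCSq f) {α β : ℂ}
    (h1 : α + β = -(A f 1 : ℂ)) (h2 : α * β = (A f 2 : ℂ)) (n : ℕ) : (T f (n + 1) : ℂ) = -(α ^ (n + 1) + β ^ (n + 1)) := by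
  obtain ⟨r1, r2, r3⟩ := T_rec hk hf hd hns
  have r1' : (A f 1 : ℂ) = T f 1 := by exact_mod_cast r1
  have r2' : 2 * (A f 2 : ℂ) = T f 2 + (T f 1 : ℂ) ^ 2 := by exact_mod_cast r2
  induction n using Nat.strong_induction_on with
  | _ n ih =>
    rcases n with _ | _ | n
    · rw [zero_add, pow_one, pow_one, ← r1']
      linear_combination h1
    · have e : (T f (0 + 1 + 1) : ℂ) = T f 2 := rfl
      rw [e, ← r1'] at *
      have e2 : (T f 2 : ℂ) = 2 * (A f 2 : ℂ) - (A f 1 : ℂ) ^ 2 := by linear_combination -r2'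
      rw [e2, ← h2]
      have e3 : (A f 1 : ℂ) = -(α + β) := by linear_combination h1
      rw [e3]
      ring
    · have e : (T f (n + 1 + 1 + 1) : ℂ) = -((A f 1 : ℂ) * T f (n + 2)) - A f 2 * T f (n + 1) := by exact_mod_cast r3 n
      rw [e, ih n (by omega), show (T f (n + 2) : ℂ) = -(α ^ (n + 1 + 1) + β ^ (n + 1 + 1)) from ih (n + 1) (by omega), ← h2]
      have e3 : (A f 1 : ℂ) = -(α + β) := by linear_combination h1
      rw [e3]
      ring

theorem A2_le (hk : ringChar k ≠ 2) {f : k[X]} (hf : f.Monic) (hd : f.natDegree = 3) (hns : ¬ IsCSq f) :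
    T f 2 + T f 1 ^ 2 ≤ 2 * (Fintype.card k : ℤ) := by
  obtain ⟨r1, r2, r3⟩ := T_rec hk hf hd hns
  obtain ⟨s, hs⟩ := IsAlgClosed.exists_pow_nat_eq ((A f 1 : ℂ) ^ 2 - 4 * A f 2) (n := 2) (by norm_num)
  obtain ⟨α, hα⟩ : ∃ α : ℂ, α = (-(A f 1 : ℂ) + s) / 2 := ⟨_, rfl⟩
  obtain ⟨β, hβ⟩ : ∃ β : ℂ, β = (-(A f 1 : ℂ) - s) / 2 := ⟨_, rfl⟩
  have h1 : α + β = -(A f 1 : ℂ) := by rw [hα, hβ]; ring
  have h2 : α * β = (A f 2 : ℂ) := by
    rw [hα, hβ]
    linear_combination (-1 / 4) * hs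
  have hq : (0 : ℝ) < Fintype.card k := by exact_mod_cast Fintype.card_pos
  have key : ∀ n, 2 * |(A f 2 : ℝ)| ^ (n + 1) ≤ 240 * (Fintype.card k : ℝ) ^ (n + 1) := by
    intro n
    have e1 : 2 * (A f 2 : ℂ) ^ (n + 1) = (T f (n + 1) : ℂ) ^ 2 + T f (2 * n + 1 + 1) := by
      rw [T_pow hk hf hd hns h1 h2, T_pow hk hf hd hns h1 h2, ← h2, mul_pow, show 2 * n + 1 + 1 = (n + 1) * 2 by ring,
        pow_mul, pow_mul]
      ring
    have e2 : 2 * (A f 2 : ℝ) ^ (n + 1) = (T f (n + 1) : ℝ) ^ 2 + T f (2 * n + 1 + 1) := by exact_mod_cast e1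
    have b1 := (T_bound hk hf (by omega) (fun c h hc => hns ⟨c, h, hc⟩) (n + 1) (by omega)).1
    have b2 := (T_bound hk hf (by omega) (fun c h hc => hns ⟨c, h, hc⟩) (2 * n + 1 + 1) (by omega)).1
    rw [hd] at b1 b2
    have hs2 : Real.sqrt (Fintype.card k) ^ (2 * n + 1 + 1) = (Fintype.card k : ℝ) ^ (n + 1) := by
      rw [show 2 * n + 1 + 1 = 2 * (n + 1) by ring, pow_mul, Real.sq_sqrt hq.le]
    have hs3 : (Real.sqrt (Fintype.card k) ^ (n + 1)) ^ 2 = (Fintype.card k : ℝ) ^ (n + 1) := by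
      rw [← pow_mul, mul_comm, pow_mul, Real.sq_sqrt hq.le]
    have e3 : 2 * |(A f 2 : ℝ)| ^ (n + 1) = |2 * (A f 2 : ℝ) ^ (n + 1)| := by
      rw [abs_mul, abs_pow]; norm_num
    rw [e3, e2]
    refine (abs_add_le _ _).trans ?_
    rw [abs_pow]
    have b3 : |(T f (n + 1) : ℝ)| ^ 2 ≤ 225 * (Fintype.card k : ℝ) ^ (n + 1) := by
      calc _ ≤ (5 * ((3 : ℕ) : ℝ) * Real.sqrt (Fintype.card k) ^ (n + 1)) ^ 2 := pow_le_pow_left₀ (abs_nonneg _) b1 2
        _ = 225 * (Real.sqrt (Fintype.card k) ^ (n + 1)) ^ 2 := by push_cast; ring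
        _ = _ := by rw [hs3]
    rw [hs2] at b2
    push_cast at b2
    linarith
  have h3 : |(A f 2 : ℝ)| ≤ Fintype.card k := by
    by_contra hcon
    push Not at hcon
    have h4 : 1 < |(A f 2 : ℝ)| / Fintype.card k := by rwa [one_lt_div hq]
    obtain ⟨n, hn⟩ := pow_unbounded_of_one_lt (120 : ℝ) h4
    have h5 : (120 : ℝ) < (|(A f 2 : ℝ)| / Fintype.card k) ^ (n + 1) :=
      hn.trans (pow_lt_pow_right₀ h4 (by omega))
    rw [div_pow, lt_div_iff₀ (by positivity)] at h5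
    linarith [key n]
  have h4 : (A f 2 : ℝ) ≤ Fintype.card k := (le_abs_self _).trans h3
  have h5 : A f 2 ≤ (Fintype.card k : ℤ) := by exact_mod_cast h4
  linarith

/-! ### singular cubics -/

theorem sum_sing {E : Type} [Field E] [Fintype E] [DecidableEq E] (hE : ringChar E ≠ 2) (r c : E) :
    ∑ x : E, quadraticChar E ((x - r) ^ 2 * (x + c)) = -quadraticChar E (r + c) := by
  have h1 : ∀ x : E, quadraticChar E ((x - r) ^ 2 * (x + c)) = quadraticChar E (x + c) - if x = r then quadraticChar E (r + c) else 0 := by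
    intro x
    split_ifs with h
    · rw [h]; simp
    · rw [map_mul, map_pow, quadraticChar_sq_one (sub_ne_zero.2 h), one_mul, sub_zero]
  rw [Finset.sum_congr rfl fun x _ => h1 x, Finset.sum_sub_distrib, Finset.sum_ite_eq' Finset.univ r,
    if_pos (Finset.mem_univ _)]
  have h2 : ∑ x : E, quadraticChar E (x + c) = ∑ x : E, quadraticChar E x :=
    Fintype.sum_equiv (Equiv.addRight c) _ _ fun x => rfl
  rw [h2, quadraticChar_sum_zero hE, zero_sub]

theorem nonsep (hk : ringChar k ≠ 2) {f : k[X]} (hf : f.Monic) (hd : f.natDegree = 3) (hs : ¬ f.Separable) :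
    T f 2 + T f 1 ^ 2 = 0 := by
  have h1 : ∃ r : k, (X - C r) * (X - C r) ∣ f := by
    rw [PerfectField.separable_iff_squarefree, squarefree_iff_irreducible_sq_not_dvd_of_ne_zero hf.ne_zero] at hs
    push Not at hs
    obtain ⟨p, hp, hpp⟩ := hs
    have h2 := natDegree_le_of_dvd hpp hf.ne_zero
    rw [natDegree_mul hp.ne_zero hp.ne_zero, hd] at h2
    have h3 := hp.natDegree_pos
    have h4 : p.natDegree = 1 := by omega
    obtain ⟨r, hr⟩ := exists_root_of_degree_eq_one (by rw [degree_eq_natDegree hp.ne_zero, h4]; rfl)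
    have h5 := dvd_iff_isRoot.2 hr
    exact ⟨r, (mul_dvd_mul h5 h5).trans hpp⟩
  obtain ⟨r, g, hg⟩ := h1
  have hm : ((X - C r) * (X - C r)).Monic := (monic_X_sub_C r).mul (monic_X_sub_C r)
  have hgm : g.Monic := Monic.of_mul_monic_left hm (by rw [← hg]; exact hf)
  have hgd : g.natDegree = 1 := by
    have h2 := congrArg natDegree hg
    rw [hd, hm.natDegree_mul hgm, (monic_X_sub_C r).natDegree_mul (monic_X_sub_C r), natDegree_X_sub_C] at h2
    omega
  obtain ⟨c, hc⟩ : ∃ c, g = X + C c := ⟨_, hgm.eq_X_add_C hgd⟩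
  have e1 : T f 1 = -quadraticChar k (r + c) := by
    rw [T_one hk, ← sum_sing hk]
    refine Finset.sum_congr rfl fun x _ => ?_
    rw [hg, hc]
    congr 1
    simp only [eval_mul, eval_sub, eval_X, eval_C, eval_add]
    ring
  obtain ⟨E, i1, i2, i3, i4, hfr, hcard⟩ := exists_ext (k := k) 2 (by norm_num)
  have hchar : ringChar E ≠ 2 := by rwa [← Algebra.ringChar_eq k E]
  have e2 : T f 2 = -quadraticChar E (algebraMap k E (r + c)) := by
    have h := T_eq_sum (E := E) hk f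
    rw [hfr] at h
    rw [h, map_add, ← sum_sing hchar]
    refine Finset.sum_congr rfl fun x _ => ?_
    rw [hg, hc]
    congr 1
    simp only [map_mul, map_sub, aeval_X, aeval_C, map_add]
    ring
  rw [e1, e2]
  by_cases h0 : r + c = 0
  · rw [h0, map_zero, MulChar.map_zero, MulChar.map_zero]; norm_num
  · have h3 := qc_norm (E := E) hk (algebraMap k E (r + c))
    rw [Algebra.norm_algebraMap, hfr, map_pow, quadraticChar_sq_one h0] at h3
    rw [h3]
    have := quadraticChar_sq_one h0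
    linear_combination this

/-! ### all cubics -/

/-- the cubic polynomials -/
noncomputable def fc (t : k × k) : k[X] := fam (X ^ 3) ∅ t

theorem fc_eq (t : k × k) : fc t = X ^ 3 + (C t.1 * X + C t.2) := by
  unfold fc fam mR
  simp

theorem fc_monic (t : k × k) : (fc t).Monic ∧ (fc t).natDegree = 3 := by
  have := fam_monic (k := k) (U := X ^ 3) (monic_X_pow 3) (R := ∅) (by rw [natDegree_X_pow]; simp) t
  rwa [natDegree_X_pow] at this

open Classical in
theorem card_sing (hk : ringChar k ≠ 2) : Fintype.card k ≤ #{t : k × k | ¬ (fc t).Separable} := by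
  have h2 : (2 : k) ≠ 0 := Ring.two_ne_zero hk
  rw [← Finset.card_univ]
  refine Finset.card_le_card_of_injOn (fun r => (-3 * r ^ 2, 2 * r ^ 3)) ?_ ?_
  · intro r _
    rw [Finset.coe_filter]
    refine ⟨Finset.mem_univ _, fun hs => ?_⟩
    have h3 := hs.squarefree
    have h4 : fc (-3 * r ^ 2, 2 * r ^ 3) = (X - C r) * (X - C r) * (X + C (2 * r)) := by
      rw [fc_eq]
      simp only [map_mul, map_neg, map_pow, map_ofNat]
      ring
    rw [h4] at h3
    exact not_isUnit_X_sub_C r (h3 (X - C r) (Dvd.intro _ rfl))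
  · intro r _ s _ h
    simp only [Prod.mk.injEq] at h
    obtain ⟨ha, hb⟩ := h
    have hb' : r ^ 3 = s ^ 3 := mul_left_cancel₀ h2 hb
    by_cases h3 : (3 : k) = 0
    · have h4 : (r - s) ^ 3 = 0 := by linear_combination hb' - r * s * (r - s) * h3
      exact sub_eq_zero.1 (pow_eq_zero_iff (by norm_num) |>.1 h4)
    · have ha' : r ^ 2 = s ^ 2 := mul_left_cancel₀ (neg_ne_zero.2 h3) ha
      by_cases hr : r = 0
      · rw [hr] at ha'
        rw [hr]
        have : s ^ 2 = 0 := by rw [← ha']; ring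
        exact (pow_eq_zero_iff two_ne_zero |>.1 this).symm
      · have h4 : r ^ 2 ≠ 0 := pow_ne_zero 2 hr
        apply mul_left_cancel₀ h4
        calc r ^ 2 * r = r ^ 3 := by ring
          _ = s ^ 3 := hb'
          _ = s ^ 2 * s := by ring
          _ = r ^ 2 * s := by rw [ha']

theorem not_csq (t : k × k) : ¬ IsCSq (fc t) := by
  rintro h
  obtain ⟨g, hg, hgg⟩ := h.monic (fc_monic t).1
  have h1 := congrArg natDegree hgg
  rw [(fc_monic t).2, hg.natDegree_pow] at h1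
  omega

/-- **The functional equation.** -/
theorem A2_eq (hk : ringChar k ≠ 2) {t : k × k} (hs : (fc t).Separable) : T (fc t) 2 + T (fc t) 1 ^ 2 = 2 * (Fintype.card k : ℤ) := by
  classical
  obtain ⟨q, hq⟩ : ∃ q : ℤ, q = Fintype.card k := ⟨_, rfl⟩
  have hS1 : ∑ t : k × k, T (fc t) 1 ^ 2 = q * (q ^ 2 - q) := by
    have h := sum_T1_sq hk (X ^ 3 : k[X]) ∅ (by simp)
    rw [Finset.card_empty] at h
    have e : ∀ t : k × k, T (fc t) 1 = T1 (X ^ 3) ∅ t := fun t => by rw [T_one hk]; rfl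
    simp only [e]
    rw [h, hq]
    push_cast
    ring
  have hS2 : ∑ t : k × k, T (fc t) 2 = q * (q ^ 2 - q) := by
    obtain ⟨E, i1, i2, i3, i4, hfr, hcard⟩ := exists_ext (k := k) 2 (by norm_num)
    have h := sum_T2 hk (X ^ 3 : k[X]) ∅ (by simp) E hfr
    have h2 : ∀ t : k × k, T (fc t) 2 = ∑ x : E, quadraticChar E (aeval x (fam (X ^ 3 : k[X]) ∅ t)) := by
      intro t
      have := T_eq_sum (E := E) hk (fc t)
      rwa [hfr] at this
    rw [Finset.sum_congr rfl fun t _ => h2 t, h, hq, Finset.card_empty]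
    push_cast
    ring
  have hS : ∑ t : k × k, (T (fc t) 2 + T (fc t) 1 ^ 2) = 2 * (q * (q ^ 2 - q)) := by
    rw [Finset.sum_add_distrib, hS1, hS2]; ring
  have hsplit := Finset.sum_filter_add_sum_filter_not (Finset.univ : Finset (k × k)) (fun t : k × k => (fc t).Separable)
    (fun t => T (fc t) 2 + T (fc t) 1 ^ 2)
  have hbad : ∑ t ∈ (Finset.univ : Finset (k × k)) with ¬ (fc t).Separable, (T (fc t) 2 + T (fc t) 1 ^ 2) = 0 :=
    Finset.sum_eq_zero fun t ht => nonsep hk (fc_monic t).1 (fc_monic t).2 (Finset.mem_filter.1 ht).2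
  rw [hbad, add_zero, hS] at hsplit
  have hcard : (#{t : k × k | (fc t).Separable} : ℤ) ≤ q ^ 2 - q := by
    have h1 := Finset.card_filter_add_card_filter_not (s := (Finset.univ : Finset (k × k))) (fun t : k × k => (fc t).Separable)
    have h2 := card_sing (k := k) hk
    rw [Finset.card_univ, Fintype.card_prod] at h1
    have h3 : (#{t : k × k | (fc t).Separable} : ℤ) + #{t : k × k | ¬ (fc t).Separable} = q * q := by
      rw [hq]; exact_mod_cast h1
    have h4 : q ≤ (#{t : k × k | ¬ (fc t).Separable} : ℤ) := by rw [hq]; exact_mod_cast h2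
    nlinarith
  have hle : ∀ t ∈ (Finset.univ : Finset (k × k)).filter (fun t => (fc t).Separable),
      0 ≤ 2 * q - (T (fc t) 2 + T (fc t) 1 ^ 2) := by
    intro t _
    have := A2_le hk (fc_monic t).1 (fc_monic t).2 (not_csq t)
    rw [← hq] at this
    linarith
  have hq0 : 0 < q := by rw [hq]; exact_mod_cast Fintype.card_pos
  have hsum : ∑ t ∈ (Finset.univ : Finset (k × k)).filter (fun t => (fc t).Separable),
      (2 * q - (T (fc t) 2 + T (fc t) 1 ^ 2)) ≤ 0 := by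
    rw [Finset.sum_sub_distrib, hsplit, Finset.sum_const, nsmul_eq_mul]
    nlinarith
  have hz := (Finset.sum_eq_zero_iff_of_nonneg hle).1 (le_antisymm hsum (Finset.sum_nonneg hle)) t
    (Finset.mem_filter.2 ⟨Finset.mem_univ _, hs⟩)
  rw [← hq]
  linarith

/-- **The logarithm of the zeta function.** -/
theorem zeta_log (hk : ringChar k ≠ 2) {t : k × k} (hs : (fc t).Separable) {c : ℝ} (hc : c ^ 2 = 1) :
    ∑' m : ℕ, (-(T (fc t) (m + 1) : ℝ)) * c ^ (m + 1) * ((Fintype.card k : ℝ)⁻¹) ^ (m + 1) / ((m : ℝ) + 1) =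
      -Real.log ((Fintype.card k + 1 + c * T (fc t) 1) / Fintype.card k) := by
  obtain ⟨q, hq⟩ : ∃ q : ℝ, q = Fintype.card k := ⟨_, rfl⟩
  obtain ⟨a, ha⟩ : ∃ a : ℝ, a = T (fc t) 1 := ⟨_, rfl⟩
  have hq1 : 1 < q := by rw [hq]; exact_mod_cast Fintype.one_lt_card
  have hq0 : 0 < q := by linarith
  obtain ⟨r1, r2, r3⟩ := T_rec hk (fc_monic t).1 (fc_monic t).2 (not_csq t)
  have hA1 : (A (fc t) 1 : ℝ) = a := by rw [ha]; exact_mod_cast r1
  have hA2 : (A (fc t) 2 : ℝ) = q := by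
    have h1 := A2_eq hk hs
    rw [← r2] at h1
    have h2 : A (fc t) 2 = (Fintype.card k : ℤ) := by linarith
    rw [h2, hq]
    simp
  have hb : a ^ 2 ≤ 4 * q := by
    have h1 := weil_sharp_monic hk (fc_monic t).1 (by rw [(fc_monic t).2]; norm_num) (fun c h hc => not_csq t ⟨c, h, hc⟩)
    rw [(fc_monic t).2] at h1
    have h2 : (∑ x : k, (quadraticChar k ((fc t).eval x) : ℝ)) = a := by
      rw [ha, T_one hk]
      push_cast
      rfl
    rw [h2] at h1
    rw [← sq_abs]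
    calc |a| ^ 2 ≤ (((3 : ℕ) - 1) * Real.sqrt (Fintype.card k)) ^ 2 := pow_le_pow_left₀ (abs_nonneg _) h1 2
      _ = 4 * Real.sqrt (Fintype.card k) ^ 2 := by push_cast; ring
      _ = 4 * q := by rw [Real.sq_sqrt (by positivity), hq]
  obtain ⟨y, hy⟩ : ∃ y : ℝ, y = Real.sqrt (4 * q - a ^ 2) / 2 := ⟨_, rfl⟩
  have hy2 : y ^ 2 = (4 * q - a ^ 2) / 4 := by
    rw [hy, div_pow, Real.sq_sqrt (by linarith)]
    norm_num
  obtain ⟨α, hα⟩ : ∃ α : ℂ, α = ⟨-a / 2, y⟩ := ⟨_, rfl⟩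
  obtain ⟨β, hβ⟩ : ∃ β : ℂ, β = ⟨-a / 2, -y⟩ := ⟨_, rfl⟩
  have h1 : α + β = -(A (fc t) 1 : ℂ) := by
    have e : ((A (fc t) 1 : ℤ) : ℂ) = ((a : ℝ) : ℂ) := by rw [← hA1]; simp
    rw [e, hα, hβ]
    apply Complex.ext
    · simp
    · simp
  have h2 : α * β = (A (fc t) 2 : ℂ) := by
    have e : ((A (fc t) 2 : ℤ) : ℂ) = ((q : ℝ) : ℂ) := by rw [← hA2]; simp
    rw [e, hα, hβ]
    apply Complex.ext
    · simp only [Complex.mul_re, Complex.ofReal_re]
      linear_combination hy2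
    · simp only [Complex.mul_im, Complex.ofReal_im]
      ring
  have hnα : ‖α‖ < q := by
    have e : ‖α‖ ^ 2 = q := by
      rw [Complex.sq_norm, Complex.normSq_apply, hα]
      simp only
      linear_combination hy2
    have : ‖α‖ ^ 2 < q ^ 2 := by rw [e]; nlinarith
    exact lt_of_pow_lt_pow_left₀ 2 hq0.le this
  have hnβ : ‖β‖ < q := by
    have e : ‖β‖ ^ 2 = q := by
      rw [Complex.sq_norm, Complex.normSq_apply, hβ]
      simp only
      linear_combination hy2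
    have : ‖β‖ ^ 2 < q ^ 2 := by rw [e]; nlinarith
    exact lt_of_pow_lt_pow_left₀ 2 hq0.le this
  have hcabs : ‖((c / q : ℝ) : ℂ)‖ = q⁻¹ := by
    have hc1 : |c| = 1 := by
      have := sq_abs c
      rw [hc] at this
      exact (pow_eq_one_iff_of_nonneg (abs_nonneg c) two_ne_zero).1 this
    rw [Complex.norm_real, Real.norm_eq_abs, abs_div, hc1, abs_of_pos hq0, one_div]
  have hser : ∀ γ : ℂ, ‖γ‖ < q → HasSum (fun m : ℕ => (γ * ((c / q : ℝ) : ℂ)) ^ (m + 1) / ((m : ℂ) + 1)) (-Complex.log (1 - γ * ((c / q : ℝ) : ℂ))) := by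
    intro γ hγ
    have hlt : ‖γ * ((c / q : ℝ) : ℂ)‖ < 1 := by
      rw [norm_mul, hcabs, ← div_eq_mul_inv, div_lt_one hq0]
      exact hγ
    have h3 := (hasSum_nat_add_iff' 1).2 (Complex.hasSum_taylorSeries_neg_log hlt)
    simp only [Finset.range_one, Finset.sum_singleton, Nat.cast_zero, div_zero, sub_zero, Nat.cast_add, Nat.cast_one] at h3
    exact h3
  have h3 := Complex.hasSum_re ((hser α hnα).add (hser β hnβ))
  have e1 : (fun m : ℕ => ((α * ((c / q : ℝ) : ℂ)) ^ (m + 1) / ((m : ℂ) + 1) + (β * ((c / q : ℝ) : ℂ)) ^ (m + 1) / ((m : ℂ) + 1)).re) =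
      fun m : ℕ => (-(T (fc t) (m + 1) : ℝ)) * c ^ (m + 1) * (q⁻¹) ^ (m + 1) / ((m : ℝ) + 1) := by
    funext m
    have e2 : (α * ((c / q : ℝ) : ℂ)) ^ (m + 1) / ((m : ℂ) + 1) + (β * ((c / q : ℝ) : ℂ)) ^ (m + 1) / ((m : ℂ) + 1) =
        (((-(T (fc t) (m + 1) : ℝ)) * c ^ (m + 1) * (q⁻¹) ^ (m + 1) / ((m : ℝ) + 1) : ℝ) : ℂ) := by
      have e3 := T_pow hk (fc_monic t).1 (fc_monic t).2 (not_csq t) h1 h2 m
      push_cast
      rw [e3, div_eq_mul_inv (c : ℂ), mul_pow, mul_pow, mul_pow]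
      ring
    rw [e2, Complex.ofReal_re]
  rw [e1] at h3
  rw [← hq, ← ha, h3.tsum_eq, Complex.add_re, Complex.neg_re, Complex.neg_re, Complex.log_re, Complex.log_re]
  have hne : ∀ γ : ℂ, ‖γ‖ < q → ‖1 - γ * ((c / q : ℝ) : ℂ)‖ ≠ 0 := by
    intro γ hγ h0
    have h4 : γ * ((c / q : ℝ) : ℂ) = 1 := by
      have := norm_eq_zero.1 h0
      linear_combination -this
    have h5 : ‖γ * ((c / q : ℝ) : ℂ)‖ = 1 := by rw [h4, norm_one]
    rw [norm_mul, hcabs, ← div_eq_mul_inv, div_eq_one_iff_eq hq0.ne'] at h5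
    exact absurd h5 (ne_of_lt hγ)
  rw [← neg_add, ← Real.log_mul (hne α hnα) (hne β hnβ), ← norm_mul]
  have e4 : (1 - α * ((c / q : ℝ) : ℂ)) * (1 - β * ((c / q : ℝ) : ℂ)) = (((q + 1 + c * a) / q : ℝ) : ℂ) := by
    have e5 : (1 - α * ((c / q : ℝ) : ℂ)) * (1 - β * ((c / q : ℝ) : ℂ)) = 1 - (α + β) * ((c / q : ℝ) : ℂ) + α * β * ((c / q : ℝ) : ℂ) ^ 2 := by ring
    have e6 : (A (fc t) 1 : ℂ) = ((a : ℝ) : ℂ) := by rw [← hA1]; simp
    have e7 : (A (fc t) 2 : ℂ) = ((q : ℝ) : ℂ) := by rw [← hA2]; simp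
    rw [e5, h1, h2, e6, e7]
    have e8 : (1 : ℝ) - (-a) * (c / q) + q * (c / q) ^ 2 = (q + 1 + c * a) / q := by
      field_simp
      rw [hc]
      ring
    rw [← e8]
    push_cast
    ring
  rw [e4, Complex.norm_real, Real.norm_eq_abs, Real.log_abs]

/-! ### the quadratic twist -/

theorem twist (hk : ringChar k ≠ 2) {d : k} (hd : d ≠ 0) (t : k × k) :
    T (fc (d ^ 2 * t.1, d ^ 3 * t.2)) 1 = quadraticChar k d * T (fc t) 1 := by
  rw [T_one hk, T_one hk, Finset.mul_sum]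
  refine (Fintype.sum_equiv (Equiv.mulLeft₀ d hd) _ _ fun x => ?_).symm
  show quadraticChar k d * quadraticChar k ((fc t).eval x) = quadraticChar k ((fc (d ^ 2 * t.1, d ^ 3 * t.2)).eval (d * x))
  have e : (fc (d ^ 2 * t.1, d ^ 3 * t.2)).eval (d * x) = d ^ 2 * (d * (fc t).eval x) := by
    rw [fc_eq, fc_eq]
    simp only [eval_add, eval_mul, eval_pow, eval_X, eval_C]
    ring
  rw [e, map_mul, map_mul, map_pow, quadraticChar_sq_one hd, one_mul]

theorem sep_twist {d : k} (hd : d ≠ 0) {t : k × k} (h : (fc (d ^ 2 * t.1, d ^ 3 * t.2)).Separable) : (fc t).Separable := by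
  have e : fc (d ^ 2 * t.1, d ^ 3 * t.2) = C (d ^ 3) * (fc t).comp (C d⁻¹ * X) := by
    rw [fc_eq, fc_eq]
    simp only [add_comp, mul_comp, pow_comp, X_comp, C_comp]
    have h1 : (C d * C d⁻¹ : k[X]) = 1 := by rw [← C_mul, mul_inv_cancel₀ hd, C_1]
    simp only [C_mul, C_pow]
    linear_combination (-(X ^ 3) * ((C d * C d⁻¹) ^ 2 + C d * C d⁻¹ + 1) - C d ^ 2 * C t.1 * X) * h1
  have e2 : (fc (d ^ 2 * t.1, d ^ 3 * t.2)).comp (C d * X) = C (d ^ 3) * fc t := by
    rw [e, mul_comp, C_comp, comp_assoc]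
    congr 1
    have h1 : (C d⁻¹ * X : k[X]).comp (C d * X) = X := by
      simp only [mul_comp, C_comp, X_comp]
      rw [← mul_assoc, ← C_mul, inv_mul_cancel₀ hd, C_1, one_mul]
    rw [h1, comp_X]
  have h2 : ((fc (d ^ 2 * t.1, d ^ 3 * t.2)).comp (C d * X)).Separable := by
    unfold Separable at h ⊢
    rw [derivative_comp]
    have h3 := h.map (compRingHom (C d * X))
    simp only [coe_compRingHom_apply] at h3
    have h4 : derivative (C d * X : k[X]) = C d := by simp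
    rw [h4]
    exact (isCoprime_mul_unit_left_right (isUnit_C.2 (isUnit_iff_ne_zero.2 hd)) _ _).2 h3
  rw [e2] at h2
  exact h2.of_mul_right

end

end Run7.h61.JT.G1
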