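import Mathlib

/-!
# Joint convergence to independent standard normal variables
-/

set_option autoImplicit false
set_option linter.unusedSectionVars false

namespace Run7.h61.JT

open MeasureTheory ProbabilityTheory Filter Topology
open scoped RealInnerProductSpace

variable {n : ℕ}

/-- the box of the vectors whose coordinates are in given sets -/
def bx (B : Fin n → Set ℝ) : Set (EuclideanSpace ℝ (Fin n)) := {y | ∀ i, y i ∈ B i}

theorem bx_eq (B : Fin n → Set ℝ) : bx B = ⋂ i, (fun y : EuclideanSpace ℝ (Fin n) => y i) ⁻¹' (B i) := by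
  ext y
  simp [bx]

theorem cont_coord (i : Fin n) : Continuous fun y : EuclideanSpace ℝ (Fin n) => y i := by fun_prop

theorem bx_meas {B : Fin n → Set ℝ} (hB : ∀ i, MeasurableSet (B i)) : MeasurableSet (bx B) := by
  rw [bx_eq]
  exact MeasurableSet.iInter fun i => (cont_coord i).measurable (hB i)

theorem bx_measure (B : Fin n → Set ℝ) (hB : ∀ i, MeasurableSet (B i)) :
    (stdGaussian (EuclideanSpace ℝ (Fin n))) (bx B) = ∏ i, gaussianReal 0 1 (B i) := by
  rw [← map_pi_eq_stdGaussian, Measure.map_apply (by fun_prop) (bx_meas hB)]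
  have : (WithLp.toLp 2 : (Fin n → ℝ) → EuclideanSpace ℝ (Fin n)) ⁻¹' (bx B) = Set.univ.pi B := by
    ext y
    simp [bx]
  rw [this, Measure.pi_pi]

theorem frontier_bx (B : Fin n → Set ℝ) : frontier (bx B) ⊆ ⋃ i, (fun y : EuclideanSpace ℝ (Fin n) => y i) ⁻¹' (frontier (B i)) := by
  intro y hy
  by_contra hcon
  simp only [Set.mem_iUnion, Set.mem_preimage, not_exists] at hcon
  rw [frontier, Set.mem_sdiff] at hy
  by_cases h : ∀ i, y i ∈ interior (B i)
  · apply hy.2
    rw [mem_interior]
    refine ⟨⋂ i, (fun y : EuclideanSpace ℝ (Fin n) => y i) ⁻¹' (interior (B i)), ?_, ?_, ?_⟩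
    · rw [bx_eq]
      exact Set.iInter_mono fun i => Set.preimage_mono interior_subset
    · exact isOpen_iInter_of_finite fun i => isOpen_interior.preimage (cont_coord i)
    · exact Set.mem_iInter.2 h
  · push Not at h
    obtain ⟨i, hi⟩ := h
    have h1 : y i ∉ closure (B i) := fun hc => hcon i ⟨hc, hi⟩
    have h2 : (fun y : EuclideanSpace ℝ (Fin n) => y i) ⁻¹' (closure (B i))ᶜ ∈ 𝓝 y :=
      (isClosed_closure.isOpen_compl.preimage (cont_coord i)).mem_nhds h1
    obtain ⟨z, hz1, hz2⟩ := mem_closure_iff_nhds.1 hy.1 _ h2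
    exact hz1 (subset_closure (hz2 i))

theorem frontier_null {B : Fin n → Set ℝ} (hF : ∀ i, gaussianReal 0 1 (frontier (B i)) = 0) :
    (stdGaussian (EuclideanSpace ℝ (Fin n))) (frontier (bx B)) = 0 := by
  refine measure_mono_null (frontier_bx B) (measure_iUnion_null fun i => ?_)
  classical
  have h : (fun y : EuclideanSpace ℝ (Fin n) => y i) ⁻¹' (frontier (B i)) ⊆
      bx (Function.update (fun _ => Set.univ) i (frontier (B i))) := by
    intro y hy j
    by_cases hj : j = i
    · subst hj
      rw [Function.update_self]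
      exact hy
    · rw [Function.update_of_ne hj]
      trivial
  refine measure_mono_null h ?_
  rw [bx_measure _ fun j => by
    by_cases hj : j = i
    · subst hj
      rw [Function.update_self]
      exact isClosed_frontier.measurableSet
    · rw [Function.update_of_ne hj]
      exact MeasurableSet.univ]
  refine Finset.prod_eq_zero (Finset.mem_univ i) ?_
  rw [Function.update_self]
  exact hF i

section
variable {α : Type} {E : Type} [NormedAddCommGroup E] [InnerProductSpace ℝ E] [FiniteDimensional ℝ E]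
  [MeasurableSpace E] [BorelSpace E]

/-- The distribution of a vector valued function over a finite set. -/
noncomputable def empE (S : Finset α) (X : α → E) : Measure E :=
  ∑ c ∈ S, ENNReal.ofReal ((S.card : ℝ)⁻¹) • Measure.dirac (X c)

theorem empE_prob (S : Finset α) (hS : S.Nonempty) (X : α → E) : IsProbabilityMeasure (empE S X) := by
  constructor
  have h : (0 : ℝ) < S.card := by exact_mod_cast hS.card_pos
  unfold empE
  rw [Measure.finsetSum_apply]
  simp only [Measure.smul_apply, measure_univ, smul_eq_mul, mul_one, Finset.sum_const, nsmul_eq_mul]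
  rw [← ENNReal.ofReal_natCast, ← ENNReal.ofReal_mul h.le, mul_inv_cancel₀ h.ne', ENNReal.ofReal_one]

open Classical in
theorem empE_apply (S : Finset α) (X : α → E) {A : Set E} (hA : MeasurableSet A) :
    (empE S X).real A = ((S.filter fun c => X c ∈ A).card : ℝ) / S.card := by
  have h : (0 : ℝ) ≤ (S.card : ℝ)⁻¹ := by positivity
  unfold Measure.real empE
  rw [Measure.finsetSum_apply, ENNReal.toReal_sum (fun c _ => by
    rw [Measure.smul_apply, smul_eq_mul]
    exact ENNReal.mul_ne_top ENNReal.ofReal_ne_top (measure_ne_top _ _))]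
  have e : ∀ c ∈ S, ((ENNReal.ofReal ((S.card : ℝ)⁻¹) • Measure.dirac (X c)) A).toReal =
      if X c ∈ A then (S.card : ℝ)⁻¹ else 0 := by
    intro c _
    rw [Measure.smul_apply, Measure.dirac_apply' _ hA, smul_eq_mul, ENNReal.toReal_mul, ENNReal.toReal_ofReal h]
    by_cases hc : X c ∈ A
    · rw [if_pos hc, Set.indicator_of_mem hc]
      simp
    · rw [if_neg hc, Set.indicator_of_notMem hc]
      simp
  rw [Finset.sum_congr rfl e, ← Finset.sum_filter, Finset.sum_const, nsmul_eq_mul, div_eq_mul_inv]

theorem empE_charFun (S : Finset α) (X : α → E) (u : E) :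
    charFun (empE S X) u = (∑ c ∈ S, Complex.exp (⟪X c, u⟫ * Complex.I)) / S.card := by
  have h : (0 : ℝ) ≤ (S.card : ℝ)⁻¹ := by positivity
  rw [charFun_apply]
  unfold empE
  rw [integral_finsetSum_measure (fun c _ => by
    refine Integrable.smul_measure ?_ ENNReal.ofReal_ne_top
    exact (integrable_dirac (by simp)))]
  simp only [integral_smul_measure, integral_dirac, ENNReal.toReal_ofReal h]
  rw [← Finset.smul_sum, div_eq_inv_mul]
  rw [Complex.real_smul]
  push_cast
  rfl

end

open Classical in
/-- **Joint convergence.** -/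
theorem joint {α : Type} (S : ℕ → Finset α) (hS : ∀ m, (S m).Nonempty) (Y : ℕ → α → EuclideanSpace ℝ (Fin n))
    (h : ∀ u : EuclideanSpace ℝ (Fin n), Tendsto (fun m => (∑ c ∈ S m, Complex.exp (⟪Y m c, u⟫ * Complex.I)) / (S m).card) atTop
      (𝓝 (Complex.exp (-‖u‖ ^ 2 / 2)))) {B : Fin n → Set ℝ} (hB : ∀ i, MeasurableSet (B i))
    (hF : ∀ i, gaussianReal 0 1 (frontier (B i)) = 0) :
    Tendsto (fun m => (((S m).filter fun c => ∀ i, Y m c i ∈ B i).card : ℝ) / (S m).card) atTop
      (𝓝 (∏ i, (gaussianReal 0 1).real (B i))) := by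
  set μ : ℕ → ProbabilityMeasure (EuclideanSpace ℝ (Fin n)) := fun m => ⟨empE (S m) (Y m), empE_prob _ (hS m) _⟩ with hμ
  set μ₀ : ProbabilityMeasure (EuclideanSpace ℝ (Fin n)) := ⟨stdGaussian _, inferInstance⟩ with hμ₀
  have hconv : Tendsto μ atTop (𝓝 μ₀) := by
    refine ProbabilityMeasure.tendsto_of_tendsto_charFun fun u => ?_
    show Tendsto (fun m => charFun (empE (S m) (Y m)) u) atTop (𝓝 (charFun (stdGaussian _) u))
    rw [charFun_stdGaussian]
    simp only [empE_charFun]
    exact h u
  have hfr : (μ₀ : Measure (EuclideanSpace ℝ (Fin n))) (frontier (bx B)) = 0 := frontier_null hF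
  have hport := ProbabilityMeasure.tendsto_measure_of_null_frontier_of_tendsto' hconv hfr
  have hport2 : Tendsto (fun m => (empE (S m) (Y m)).real (bx B)) atTop (𝓝 ((stdGaussian (EuclideanSpace ℝ (Fin n))).real (bx B))) := by
    exact (ENNReal.tendsto_toReal (measure_ne_top (μ₀ : Measure _) (bx B))).comp hport
  have e : (stdGaussian (EuclideanSpace ℝ (Fin n))).real (bx B) = ∏ i, (gaussianReal 0 1).real (B i) := by
    unfold Measure.real
    rw [bx_measure B hB, ENNReal.toReal_prod]
  rw [e] at hport2
  refine hport2.congr fun m => ?_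
  rw [empE_apply _ _ (bx_meas hB)]
  congr

end Run7.h61.JT
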