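import Pool.Agent.Run7.h61.HK.Mom
import Pool.Agent.Run7.h61.JT.Gauss
import Pool.Agent.Run7.h9.TW.Mert
import Pool.Agent.Run7.h876.PW.Clt

/-!
# Twists by several quadratic characters: the joint mod-Gaussian convergence
-/

set_option autoImplicit false
set_option linter.unusedSectionVars false

namespace Run7.h61.JT

open NumberField IsDedekindDomain Finset Filter Topology Polynomial
open Run7.h876.MM (nv kv two_le_nv nv_pos avg avg_sub' norm_avg_le xv norm_xv instFieldKv instFintypeKv instDecKv SZ mem_SZ y0_lt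
  mult_of tail_bound tail_small prod_sub_one_le tprod_ne)
open Run7.h876.EN
open Run7.h876.HY (GoodAt frobTrace)
open Run7.h61.TW Run7.h61.HK
open Run7.h9.BS (VZ VZ_atTop)

section
variable {K : Type} [Field K] [NumberField K] {J : Type} [Fintype J] [DecidableEq J] (𝓓 : TD K J)

/-- The limit function of a small twist is near one. -/
theorem GG_small {ε : ℝ} (hε : 0 < ε) : ∃ δ : ℝ, 0 < δ ∧ δ ≤ 1 ∧ ∀ b : HeightOneSpectrum (𝓞 K) → ℕ → ℂ,
    (∀ v m, ‖b v m‖ ≤ δ) → ‖GG 𝓓 b 1 - 1‖ ≤ ε := by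
  obtain ⟨u, hu, hub⟩ := exists_majU 𝓓 (β := 1) zero_le_one (σ := 1) (by norm_num)
  obtain ⟨S, hS⟩ := tail_small hu (ε := ε / 2) (by positivity)
  have hS' := hS S subset_rfl
  have hEB : Continuous fun δ : ℝ => EB 𝓓 δ 1 := by unfold EB; fun_prop
  have hEB0 : EB 𝓓 0 1 = 0 := by unfold EB; ring
  have c1 : Tendsto (fun δ : ℝ => EB 𝓓 δ 1) (𝓝 0) (𝓝 0) := by
    have := hEB.tendsto 0
    rwa [hEB0] at this
  have c2 : Tendsto (fun δ : ℝ => Real.exp (∑ _v ∈ S, 2 * EB 𝓓 δ 1) - 1) (𝓝 0) (𝓝 0) := by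
    have h : Continuous fun δ : ℝ => Real.exp (∑ _v ∈ S, 2 * EB 𝓓 δ 1) - 1 := by fun_prop
    have h2 := h.tendsto 0
    rw [hEB0] at h2
    simpa using h2
  have e1 := c1.eventually (gt_mem_nhds one_pos)
  have e2 := c2.eventually (gt_mem_nhds (show (0 : ℝ) < ε / 2 by positivity))
  obtain ⟨r, hr, hr2⟩ := Metric.eventually_nhds_iff.1 (e1.and e2)
  obtain ⟨δ, hδ⟩ : ∃ δ, δ = min 1 (r / 2) := ⟨_, rfl⟩
  have hδ0 : 0 < δ := by rw [hδ]; positivity
  have hδ1 : δ ≤ 1 := by rw [hδ]; exact min_le_left _ _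
  have hδr : δ < r := by
    rw [hδ]
    exact (min_le_right _ _).trans_lt (by linarith)
  obtain ⟨f1, f2⟩ := hr2 (y := δ) (by rw [dist_zero_right, Real.norm_eq_abs, abs_of_pos hδ0]; exact hδr)
  refine ⟨δ, hδ0, hδ1, fun b hb => ?_⟩
  have hb1 : ∀ v m, ‖b v m‖ ≤ 1 := fun v m => (hb v m).trans hδ1
  have t1 := tail_bound hu (fun v => hub b hb1 v 1 (by simp)) S
  have hloc : ∀ v, ‖hv 𝓓 b v 1 - 1‖ ≤ 2 * EB 𝓓 δ 1 := by
    intro v
    have hz : ∀ t, ‖zz 𝓓 b v 1 t‖ ≤ EB 𝓓 δ 1 := by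
      intro t
      refine (zz_le 𝓓 hb (σ := 1) (by norm_num) v (by simp) t).trans ?_
      refine mul_le_of_le_one_right (EB_nonneg 𝓓 hδ0.le (by norm_num)) ?_
      rw [sqrt_xv]
      have h2 : (1 : ℝ) ≤ nv v := by exact_mod_cast (two_le_nv v).trans' (by norm_num)
      exact Real.rpow_le_one_of_one_le_of_nonpos h2 (by simp; norm_num)
    have hcard : avg (Finset.univ : Finset (J → kv v)) (fun _ => (1 : ℂ)) = 1 := by
      unfold avg
      rw [Finset.sum_const, nsmul_eq_mul, mul_one, div_self]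
      exact_mod_cast Finset.card_ne_zero.2 ⟨0, Finset.mem_univ _⟩
    have e : hv 𝓓 b v 1 - 1 = avg Finset.univ (fun t => Complex.exp (zz 𝓓 b v 1 t) - 1) := by
      rw [← avg_sub', hcard]
      rfl
    rw [e]
    refine norm_avg_le _ _ _ (by have := EB_nonneg 𝓓 hδ0.le (σ := 1) (by norm_num); positivity) fun t _ => ?_
    refine (Complex.norm_exp_sub_one_le ((hz t).trans f1.le)).trans ?_
    linarith [hz t]
  have t2 := prod_sub_one_le hloc S
  have e : GG 𝓓 b 1 - 1 = (∏' v, hv 𝓓 b v 1 - ∏ v ∈ S, hv 𝓓 b v 1) + (∏ v ∈ S, hv 𝓓 b v 1 - 1) := by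
    unfold GG
    ring
  rw [e]
  refine (norm_add_le _ _).trans ?_
  linarith

end

section
variable {K : Type} [Field K] [NumberField K] {n : ℕ}

/-! ### the sums -/

/-- the logarithm of the Euler product of a real function of the places -/
noncomputable def TT (Z : ℕ) (c : HeightOneSpectrum (𝓞 K) → ℝ) : ℝ := ∑ v ∈ SZ K Z, -Real.log (1 - c v / nv v)

theorem TT_one (Z : ℕ) : TT Z (fun _ : HeightOneSpectrum (𝓞 K) => 1) = VZ K Z := rfl

theorem TT_fin {c : HeightOneSpectrum (𝓞 K) → ℝ} (hf : {v | c v ≠ 1}.Finite) : ∃ C : ℝ, ∀ Z : ℕ, |TT Z c - VZ K Z| ≤ C := by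
  classical
  refine ⟨∑ v ∈ hf.toFinset, |(-Real.log (1 - c v / nv v)) - (-Real.log (1 - 1 / nv v))|, fun Z => ?_⟩
  rw [← TT_one]
  unfold TT
  rw [← Finset.sum_sub_distrib]
  refine (Finset.abs_sum_le_sum_abs _ _).trans ?_
  have h3 : ∑ v ∈ SZ K Z, |(-Real.log (1 - c v / nv v)) - (-Real.log (1 - 1 / nv v))| =
      ∑ v ∈ (SZ K Z).filter (fun v => v ∈ hf.toFinset), |(-Real.log (1 - c v / nv v)) - (-Real.log (1 - 1 / nv v))| := by
    rw [Finset.sum_filter]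
    refine Finset.sum_congr rfl fun v _ => ?_
    split_ifs with hv
    · rfl
    · have : c v = 1 := by
        by_contra hne
        exact hv (hf.mem_toFinset.2 hne)
      rw [this, sub_self, abs_zero]
  rw [h3]
  exact Finset.sum_le_sum_of_subset_of_nonneg (fun v hv => (Finset.mem_filter.1 hv).2) fun v _ _ => abs_nonneg _

theorem hasSum_loc {c : ℝ} (hc : |c| ≤ 1) (v : HeightOneSpectrum (𝓞 K)) :
    HasSum (fun m : ℕ => (c : ℂ) ^ (m + 1) * ((nv v : ℂ) ^ (-(1 : ℂ))) ^ (m + 1) / ((m : ℂ) + 1)) ((-Real.log (1 - c / nv v) : ℝ) : ℂ) := by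
  have h2 : (2 : ℝ) ≤ nv v := by exact_mod_cast two_le_nv v
  have hlt : |c / nv v| < 1 := by
    rw [abs_div, abs_of_pos (nv_pos v), div_lt_one (nv_pos v)]
    linarith
  have h := Real.hasSum_pow_div_log_of_abs_lt_one hlt
  have h3 := Complex.hasSum_ofReal.2 h
  have e : (fun m : ℕ => (c : ℂ) ^ (m + 1) * ((nv v : ℂ) ^ (-(1 : ℂ))) ^ (m + 1) / ((m : ℂ) + 1)) =
      fun m : ℕ => (((c / nv v) ^ (m + 1) / ((m : ℝ) + 1) : ℝ) : ℂ) := by
    funext m
    push_cast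
    rw [Complex.cpow_neg_one, div_eq_mul_inv (c : ℂ), mul_pow]
  rw [e]
  exact h3

theorem TT_log {c : HeightOneSpectrum (𝓞 K) → ℝ} (hc : ∀ v, |c v| ≤ 1) (Z : ℕ) :
    Real.log ‖artinZ Z (fun v m => (c v : ℂ) ^ (m + 1)) 1‖ = TT Z c := by
  have e : artinZ Z (fun v m => (c v : ℂ) ^ (m + 1)) 1 = ((Real.exp (TT Z c) : ℝ) : ℂ) := by
    unfold artinZ TT
    rw [Complex.ofReal_exp, Complex.ofReal_sum, Complex.exp_sum]
    refine Finset.prod_congr rfl fun v _ => ?_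
    rw [← (hasSum_loc (hc v) v).tsum_eq]
    rfl
  rw [e, Complex.norm_real, Real.norm_eq_abs, abs_of_pos (Real.exp_pos _), Real.log_exp]

theorem TT_avg {c : HeightOneSpectrum (𝓞 K) → ℝ} (hc : ∀ v, |c v| ≤ 1) (h0 : HasAvg K c 0) :
    Tendsto (fun Z : ℕ => TT Z c / VZ K Z) atTop (𝓝 0) := by
  have h1 := log_artinZ (K := K) (a := fun v m => (c v : ℂ) ^ (m + 1)) (B := 1) (fun v m => by
    rw [norm_pow, Complex.norm_real, Real.norm_eq_abs]
    exact pow_le_one₀ (abs_nonneg _) (hc v)) (c := 0) (h0.congr (by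
      refine Set.Finite.subset Set.finite_empty fun v hv => hv ?_
      simp))
  simp only [TT_log hc] at h1
  obtain ⟨C, hC0, hC⟩ := Run7.h9.TW.VZ_mert K
  have hV := VZ_atTop (K := K)
  have h2 : Tendsto (fun Z : ℕ => Real.log (Real.log Z) / VZ K Z) atTop (𝓝 1) := by
    have h3 : Tendsto (fun Z : ℕ => (Real.log (Real.log Z) - VZ K Z) / VZ K Z) atTop (𝓝 0) := by
      have h4 : Tendsto (fun Z : ℕ => C / VZ K Z) atTop (𝓝 0) := hV.const_div_atTop C
      refine squeeze_zero_norm' ?_ h4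
      filter_upwards [hV.eventually_gt_atTop 0, Filter.eventually_ge_atTop 3] with Z hZ hZ3
      rw [norm_div, Real.norm_eq_abs, Real.norm_eq_abs, abs_of_pos hZ]
      refine div_le_div_of_nonneg_right ?_ hZ.le
      rw [abs_sub_comm]
      exact hC Z hZ3
    have h5 := h3.add_const 1
    rw [zero_add] at h5
    refine h5.congr' ?_
    filter_upwards [hV.eventually_gt_atTop 0] with Z hZ
    rw [sub_div, div_self hZ.ne']
    ring
  have h6 := h1.mul h2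
  rw [zero_mul] at h6
  refine h6.congr' ?_
  have h7 : ∀ᶠ Z : ℕ in atTop, (0 : ℝ) < Real.log (Real.log Z) :=
    (Real.tendsto_log_atTop.comp (Real.tendsto_log_atTop.comp tendsto_natCast_atTop_atTop)).eventually_gt_atTop 0
  filter_upwards [h7] with Z hZ
  rw [div_mul_div_comm, mul_comm (TT Z c), mul_div_mul_left _ _ hZ.ne']

/-! ### the second Euler product -/

theorem ext2_lin (κ c : Fin n → ℂ) (m : ℕ) : ext2 (fun m => ∑ i, κ i * c i ^ (m + 1)) m =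
    ∑ p ∈ pairs n, κ p.1 * κ p.2 * (c p.1 * c p.2) ^ (m + 1) + ∑ i, (κ i ^ 2 - κ i) / 2 * (c i ^ 2) ^ (m + 1) := by
  unfold ext2
  rw [sum_sq_pairs]
  have e1 : ∑ p ∈ pairs n, κ p.1 * c p.1 ^ (m + 1) * (κ p.2 * c p.2 ^ (m + 1)) =
      ∑ p ∈ pairs n, κ p.1 * κ p.2 * (c p.1 * c p.2) ^ (m + 1) := by
    refine Finset.sum_congr rfl fun p _ => ?_
    rw [mul_pow (c p.1)]
    ring
  have e2 : ∑ i, (κ i ^ 2 - κ i) / 2 * (c i ^ 2) ^ (m + 1) = (∑ i, (κ i * c i ^ (m + 1)) ^ 2 - ∑ i, κ i * c i ^ (2 * m + 1 + 1)) / 2 := by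
    rw [← Finset.sum_sub_distrib, Finset.sum_div]
    refine Finset.sum_congr rfl fun i _ => ?_
    have e3 : c i ^ (2 * m + 1 + 1) = (c i ^ 2) ^ (m + 1) := by
      rw [← pow_mul]
      congr 1
    have e4 : (κ i * c i ^ (m + 1)) ^ 2 = κ i ^ 2 * (c i ^ 2) ^ (m + 1) := by
      rw [mul_pow, ← pow_mul, ← pow_mul, mul_comm 2]
    rw [e3, e4]
    ring
  rw [e1, e2]
  ring

variable {χ : Fin n → HeightOneSpectrum (𝓞 K) → ℝ}

theorem chi_mul (hχ : ∀ i v, |χ i v| ≤ 1) (i j : Fin n) (v : HeightOneSpectrum (𝓞 K)) : |χ i v * χ j v| ≤ 1 := by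
  rw [abs_mul]
  exact mul_le_one₀ (hχ i v) (abs_nonneg _) (hχ j v)

theorem chi_sq (hχ : ∀ i v, |χ i v| ≤ 1) (i : Fin n) (v : HeightOneSpectrum (𝓞 K)) : |χ i v ^ 2| ≤ 1 := by
  rw [sq]
  exact chi_mul hχ i i v

theorem eulerZ_lin (hχ : ∀ i v, |χ i v| ≤ 1) (κ : Fin n → ℂ) (Z : ℕ) :
    eulerZ Z (fun v => ext2 fun m => ∑ i, κ i * (χ i v : ℂ) ^ (m + 1)) 1 =
      Complex.exp (∑ p ∈ pairs n, κ p.1 * κ p.2 * TT Z (fun v => χ p.1 v * χ p.2 v) +
        ∑ i, (κ i ^ 2 - κ i) / 2 * TT Z (fun v => χ i v ^ 2)) := by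
  unfold eulerZ
  rw [tprod_SZ]
  have hv : ∀ v, ∑' m : ℕ, ext2 (fun m => ∑ i, κ i * (χ i v : ℂ) ^ (m + 1)) m * ((nv v : ℂ) ^ (-(1 : ℂ))) ^ (m + 1) / ((m : ℂ) + 1) =
      ∑ p ∈ pairs n, κ p.1 * κ p.2 * ((-Real.log (1 - χ p.1 v * χ p.2 v / nv v) : ℝ) : ℂ) +
        ∑ i, (κ i ^ 2 - κ i) / 2 * ((-Real.log (1 - χ i v ^ 2 / nv v) : ℝ) : ℂ) := by
    intro v
    have h1 := hasSum_sum (s := pairs n) fun p _ => (hasSum_loc (chi_mul hχ p.1 p.2 v) v).mul_left (κ p.1 * κ p.2)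
    have h2 := hasSum_sum (s := (Finset.univ : Finset (Fin n))) fun i _ => (hasSum_loc (chi_sq hχ i v) v).mul_left ((κ i ^ 2 - κ i) / 2)
    rw [← (h1.add h2).tsum_eq]
    congr 1
    funext m
    rw [ext2_lin, add_mul, add_div, Finset.sum_mul, Finset.sum_mul, Finset.sum_div, Finset.sum_div]
    congr 1
    · refine Finset.sum_congr rfl fun p _ => ?_
      push_cast
      ring
    · refine Finset.sum_congr rfl fun i _ => ?_
      push_cast
      ring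
  rw [Finset.prod_congr rfl fun v _ => by rw [hv v], ← Complex.exp_sum]
  congr 1
  rw [Finset.sum_add_distrib, Finset.sum_comm, Finset.sum_comm (s := SZ K Z) (t := Finset.univ)]
  unfold TT
  congr 1
  · refine Finset.sum_congr rfl fun p _ => ?_
    rw [Complex.ofReal_sum, Finset.mul_sum]
  · refine Finset.sum_congr rfl fun i _ => ?_
    rw [Complex.ofReal_sum, Finset.mul_sum]

/-! ### the first side -/

open Classical in
/-- the logarithm of a local factor -/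
noncomputable def ll (f : (𝓞 K)[X]) (c : ℝ) (v : HeightOneSpectrum (𝓞 K)) : ℝ :=
  if GoodAt f v then ∑' m : ℕ, (frobTrace f v (m + 1) : ℝ) * c ^ (m + 1) * (((nv v : ℝ))⁻¹) ^ (m + 1) / ((m : ℝ) + 1) else 0

/-- the logarithm of a partial product -/
noncomputable def LX (Z : ℕ) (f : (𝓞 K)[X]) (c : HeightOneSpectrum (𝓞 K) → ℝ) : ℝ := ∑ v ∈ SZ K Z, ll f (c v) v

variable {J : Type} [Fintype J] [DecidableEq J] (𝓕 : TFam K J)

theorem twFactor_lin (hχ : ∀ i v, |χ i v| ≤ 1) (κ : Fin n → ℂ) (t : Fin 2 ⊕ J → 𝓞 K) (v : HeightOneSpectrum (𝓞 K)) :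
    twFactor (𝓕.member t) (fun m => ∑ i, κ i * (χ i v : ℂ) ^ (m + 1)) v 1 = Complex.exp (∑ i, κ i * ll (𝓕.member t) (χ i v) v) := by
  classical
  unfold twFactor ll
  split_ifs with h
  · have hsum : ∀ i, Summable fun m : ℕ => (frobTrace (𝓕.member t) v (m + 1) : ℂ) * (χ i v : ℂ) ^ (m + 1) * ((nv v : ℂ) ^ (-(1 : ℂ))) ^ (m + 1) / ((m : ℂ) + 1) := by
      intro i
      obtain ⟨h1, h2, h3, h4⟩ := basic (σ := 1) (by norm_num) v (s := 1) (by simp)
      have hy := y0_lt (σ := 1) (by norm_num)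
      refine ell_summable (a := fun m => (frobTrace (𝓕.member t) v (m + 1) : ℂ) * (χ i v : ℂ) ^ (m + 1)) (D := (5 * 𝓕.F₀.natDegree + 1) * 1)
        (Q := Real.sqrt (nv v)) (by positivity) (Real.sqrt_nonneg _) (fun m => ?_) (lt_of_le_of_lt h2 hy)
      have e1 := 𝓕.frobTrace_eq h m
      have e2 : ((frobTrace (𝓕.member t) v (m + 1) : ℤ) : ℂ) = ((𝓕.av v (rd v t) m : ℝ) : ℂ) := by
        rw [← e1]; push_cast; rfl
      rw [e2, norm_mul, Complex.norm_real, Real.norm_eq_abs]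
      calc _ ≤ ((5 * 𝓕.F₀.natDegree + 1) * Real.sqrt (nv v) ^ (m + 1)) * 1 :=
            mul_le_mul (𝓕.av_le v _ m) (by
              rw [norm_pow, Complex.norm_real, Real.norm_eq_abs]
              exact pow_le_one₀ (abs_nonneg _) (hχ i v)) (norm_nonneg _) (by positivity)
        _ = _ := by ring
    congr 1
    have e : (fun m : ℕ => (frobTrace (𝓕.member t) v (m + 1) : ℂ) * (∑ i, κ i * (χ i v : ℂ) ^ (m + 1)) * ((nv v : ℂ) ^ (-(1 : ℂ))) ^ (m + 1) / ((m : ℂ) + 1)) =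
        fun m => ∑ i, κ i * ((frobTrace (𝓕.member t) v (m + 1) : ℂ) * (χ i v : ℂ) ^ (m + 1) * ((nv v : ℂ) ^ (-(1 : ℂ))) ^ (m + 1) / ((m : ℂ) + 1)) := by
      funext m
      rw [Finset.mul_sum, Finset.sum_mul, Finset.sum_div]
      refine Finset.sum_congr rfl fun i _ => ?_
      ring
    rw [e, Summable.tsum_finsetSum fun i _ => (hsum i).mul_left _]
    refine Finset.sum_congr rfl fun i _ => ?_
    rw [tsum_mul_left, Complex.ofReal_tsum]
    congr 2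
    funext m
    push_cast
    rw [Complex.cpow_neg_one]
  · simp

theorem twPartial_lin (hχ : ∀ i v, |χ i v| ≤ 1) (κ : Fin n → ℂ) (t : Fin 2 ⊕ J → 𝓞 K) (Z : ℕ) :
    twPartial Z (𝓕.member t) (fun v m => ∑ i, κ i * (χ i v : ℂ) ^ (m + 1)) 1 = Complex.exp (∑ i, κ i * LX Z (𝓕.member t) (χ i)) := by
  rw [twPartial_eq, Finset.prod_congr rfl fun v _ => twFactor_lin 𝓕 hχ κ t v, ← Complex.exp_sum, Finset.sum_comm]
  congr 1
  refine Finset.sum_congr rfl fun i _ => ?_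
  unfold LX
  rw [Complex.ofReal_sum, Finset.mul_sum]

theorem log_chi {c : HeightOneSpectrum (𝓞 K) → ℝ} (hc : ∀ v, |c v| ≤ 1) (t : Fin 2 ⊕ J → 𝓞 K) (Z : ℕ) :
    Real.log ‖chiPartial Z (𝓕.member t) (fun v => (c v : ℂ)) 1‖ = LX Z (𝓕.member t) c := by
  have h := twPartial_lin 𝓕 (n := 1) (χ := fun _ => c) (fun _ v => hc v) (fun _ => 1) t Z
  simp only [Finset.univ_unique, Finset.sum_singleton, one_mul] at h
  unfold chiPartial
  rw [h, ← Complex.ofReal_exp, Complex.norm_real, Real.norm_eq_abs, abs_of_pos (Real.exp_pos _), Real.log_exp]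

end

end Run7.h61.JT
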