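import Pool.Agent.Run7.h61.TW.Red

/-!
# Quadratic symbols and their mean values
-/

set_option autoImplicit false
set_option linter.unusedSectionVars false

namespace Run7.h61.JT

open NumberField IsDedekindDomain Finset Filter Topology
open Pool.Agent.W401.Cheb (GK IsFrob IsInert)
open Run7.h876.MM (nv kv card_kv instFieldKv instFintypeKv instDecKv nv_pos ring_char_two)
open Run7.h61.TW

section
variable {K : Type} [Field K] [NumberField K]

open Classical in
/-- the quadratic symbol of `d` at `v` -/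
noncomputable def qs (d : 𝓞 K) (v : HeightOneSpectrum (𝓞 K)) : ℝ :=
  if (2 : 𝓞 K) ∈ v.asIdeal then 0 else ((quadraticChar (kv v) (Ideal.Quotient.mk v.asIdeal d) : ℤ) : ℝ)

theorem qs_abs (d : 𝓞 K) (v : HeightOneSpectrum (𝓞 K)) : |qs d v| ≤ 1 := by
  unfold qs
  split_ifs with h
  · simp
  · by_cases h0 : Ideal.Quotient.mk v.asIdeal d = 0
    · rw [h0, MulChar.map_zero]; simp
    · rcases quadraticChar_dichotomy h0 with h1 | h1 <;> rw [h1] <;> simp

theorem qs_mul (d e : 𝓞 K) (v : HeightOneSpectrum (𝓞 K)) : qs (d * e) v = qs d v * qs e v := by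
  unfold qs
  split_ifs with h
  · simp
  · rw [map_mul, map_mul]
    push_cast
    ring

theorem qs_sq (d : 𝓞 K) {v : HeightOneSpectrum (𝓞 K)} (h : 2 * d ∉ v.asIdeal) : qs d v ^ 2 = 1 := by
  have h2 : (2 : 𝓞 K) ∉ v.asIdeal := fun h1 => h (v.asIdeal.mul_mem_right _ h1)
  have hd : d ∉ v.asIdeal := fun h1 => h (v.asIdeal.mul_mem_left _ h1)
  have h0 : Ideal.Quotient.mk v.asIdeal d ≠ 0 := fun h1 => hd (Ideal.Quotient.eq_zero_iff_mem.1 h1)
  unfold qs
  rw [if_neg h2]
  exact_mod_cast quadraticChar_sq_one h0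

theorem fin_mem {N : 𝓞 K} (hN : N ≠ 0) : {v : HeightOneSpectrum (𝓞 K) | N ∈ v.asIdeal}.Finite := by
  have h1 := Ideal.finite_factors (R := 𝓞 K) (I := Ideal.span {N}) (by
    rw [Ne, Ideal.zero_eq_bot, Ideal.span_singleton_eq_bot]
    exact hN)
  refine h1.subset fun v hv => ?_
  show v.asIdeal ∣ Ideal.span {N}
  rw [Ideal.dvd_span_singleton]
  exact hv

theorem qs_fin {d : 𝓞 K} (hd : d ≠ 0) : {v | qs d v ^ 2 ≠ 1}.Finite := by
  refine (fin_mem (N := 2 * d) (mul_ne_zero two_ne_zero hd)).subset fun v hv => ?_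
  by_contra h
  exact hv (qs_sq d h)

/-! ### the square root -/

theorem exists_root (d : 𝓞 K) : ∃ α : OB K, α ^ 2 = algebraMap (𝓞 K) (OB K) d := by
  obtain ⟨a, ha⟩ := IsAlgClosed.exists_pow_nat_eq (algebraMap (𝓞 K) (AlgebraicClosure K) d) (n := 2) (by norm_num)
  have h1 : IsIntegral ℤ (a ^ 2) := by
    rw [ha]
    exact (RingOfIntegers.isIntegral d).map (algebraMap (𝓞 K) (AlgebraicClosure K)).toIntAlgHom
  refine ⟨⟨a, IsIntegral.of_pow (by norm_num) h1⟩, ?_⟩
  apply RingOfIntegers.ext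
  exact ha

variable {d : 𝓞 K} {α : OB K}

theorem smul_root (h : α ^ 2 = algebraMap (𝓞 K) (OB K) d) (σ : GK K) : σ • α = α ∨ σ • α = -α := by
  have h1 : (σ • α) ^ 2 = α ^ 2 := by
    rw [← smul_pow', h, TFam.smul_alg]
  exact sq_eq_sq_iff_eq_or_eq_neg.1 h1

theorem root_ne (h : α ^ 2 = algebraMap (𝓞 K) (OB K) d) (hd : d ≠ 0) : α ≠ 0 := by
  rintro rfl
  rw [zero_pow two_ne_zero] at h
  exact hd (TFam.alg_inj (by rw [← h, map_zero]))

theorem root_ne_neg (h : α ^ 2 = algebraMap (𝓞 K) (OB K) d) (hd : d ≠ 0) : -α ≠ α := by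
  intro h1
  have h2 : (2 : OB K) * α = 0 := by linear_combination -h1
  rcases mul_eq_zero.1 h2 with h3 | h3
  · exact two_ne_zero h3
  · exact root_ne h hd h3

open Classical in
/-- the character of the Galois group -/
noncomputable def psi (h : α ^ 2 = algebraMap (𝓞 K) (OB K) d) (hd : d ≠ 0) : GK K →* ℤˣ where
  toFun σ := if σ • α = α then 1 else -1
  map_one' := by simp
  map_mul' σ τ := by
    have hne := root_ne_neg h hd
    rcases smul_root h σ with h1 | h1 <;> rcases smul_root h τ with h2 | h2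
    · rw [mul_smul, h2, h1]; simp
    · rw [mul_smul, h2, smul_neg, h1]; simp [hne]
    · rw [mul_smul, h2, h1]; simp [hne]
    · rw [mul_smul, h2, smul_neg, h1]; simp [hne]

theorem psi_apply (h : α ^ 2 = algebraMap (𝓞 K) (OB K) d) (hd : d ≠ 0) (σ : GK K) :
    (psi h hd σ = 1 ∧ σ • α = α) ∨ (psi h hd σ = -1 ∧ σ • α = -α) := by
  classical
  have hne := root_ne_neg h hd
  rcases smul_root h σ with h1 | h1
  · left
    refine ⟨?_, h1⟩
    show (if σ • α = α then (1 : ℤˣ) else -1) = 1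
    rw [if_pos h1]
  · right
    refine ⟨?_, h1⟩
    show (if σ • α = α then (1 : ℤˣ) else -1) = -1
    rw [if_neg (by rw [h1]; exact hne)]

theorem psi_surj (h : α ^ 2 = algebraMap (𝓞 K) (OB K) d) (hd : d ≠ 0) (hs : ¬ IsSquare (algebraMap (𝓞 K) K d)) :
    Function.Surjective (psi h hd) := by
  have h1 : ∃ σ, psi h hd σ = -1 := by
    by_contra hno
    push Not at hno
    have h2 : ∀ σ : GK K, σ (α : AlgebraicClosure K) = α := by
      intro σ
      rcases psi_apply h hd σ with h3 | h3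
      · exact congrArg (algebraMap (OB K) (AlgebraicClosure K)) h3.2
      · exact absurd h3.1 (hno σ)
    have h3 := (InfiniteGalois.mem_bot_iff_fixed (k := K) (α : AlgebraicClosure K)).2 h2
    obtain ⟨r, hr⟩ := IntermediateField.mem_bot.1 h3
    apply hs
    refine ⟨r, ?_⟩
    apply (algebraMap K (AlgebraicClosure K)).injective
    have h4 : algebraMap (OB K) (AlgebraicClosure K) (α ^ 2) = algebraMap (OB K) (AlgebraicClosure K) (algebraMap (𝓞 K) (OB K) d) := by rw [h]
    rw [← IsScalarTower.algebraMap_apply, IsScalarTower.algebraMap_apply (𝓞 K) K (AlgebraicClosure K)] at h4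
    rw [← h4, map_mul, hr, map_pow, sq]
  intro u
  rcases Int.units_eq_one_or u with rfl | rfl
  · exact ⟨1, map_one _⟩
  · exact h1

theorem psi_open (h : α ^ 2 = algebraMap (𝓞 K) (OB K) d) (hd : d ≠ 0) : IsOpen ((psi h hd).ker : Set (GK K)) := by
  have hint : IsIntegral K (α : AlgebraicClosure K) := Algebra.IsIntegral.isIntegral _
  have : FiniteDimensional K (IntermediateField.adjoin K {(α : AlgebraicClosure K)}) := IntermediateField.adjoin.finiteDimensional hint
  refine Subgroup.isOpen_mono ?_ (IntermediateField.fixingSubgroup_isOpen (IntermediateField.adjoin K {(α : AlgebraicClosure K)}))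
  intro σ hσ
  rw [MonoidHom.mem_ker]
  rcases psi_apply h hd σ with h3 | h3
  · exact h3.1
  · exfalso
    have h4 : σ (α : AlgebraicClosure K) = α :=
      (IntermediateField.mem_fixingSubgroup_iff _ _).1 hσ _ (IntermediateField.mem_adjoin_simple_self K _)
    have h5 : σ • α = α := RingOfIntegers.ext h4
    rw [h3.2] at h5
    exact root_ne_neg h hd h5

theorem psi_frob (h : α ^ 2 = algebraMap (𝓞 K) (OB K) d) (hd : d ≠ 0) {v : HeightOneSpectrum (𝓞 K)} (hv : 2 * d ∉ v.asIdeal)
    {σ : GK K} (hσ : IsFrob v σ) : qs d v = ((psi h hd σ : ℤ) : ℝ) := by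
  have h2 : (2 : 𝓞 K) ∉ v.asIdeal := fun h1 => hv (v.asIdeal.mul_mem_right _ h1)
  have hdv : d ∉ v.asIdeal := fun h1 => hv (v.asIdeal.mul_mem_left _ h1)
  have hd0 : Ideal.Quotient.mk v.asIdeal d ≠ 0 := fun h1 => hdv (Ideal.Quotient.eq_zero_iff_mem.1 h1)
  have c1 : ringChar (kv v) ≠ 2 := by
    intro hc
    have := ring_char_two hc
    apply h2
    refine Ideal.Quotient.eq_zero_iff_mem.1 ?_
    rw [map_ofNat]
    exact this
  obtain ⟨Q, hQm, hQv, hQσ⟩ := hσ
  have hQp : Q.IsPrime := hQm.isPrime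
  let _ : Field (OB K ⧸ Q) := Ideal.Quotient.field Q
  set red : OB K →+* OB K ⧸ Q := Ideal.Quotient.mk Q with hred
  set ι : kv v →+* OB K ⧸ Q := Ideal.quotientMap Q (algebraMap (𝓞 K) (OB K)) (le_of_eq hQv.symm) with hι
  have hιmk : ∀ a : 𝓞 K, ι (Ideal.Quotient.mk v.asIdeal a) = red (algebraMap (𝓞 K) (OB K) a) := by
    intro a
    rw [hι, hred]
    exact Ideal.quotientMap_mk
  have hιinj : Function.Injective ι := ι.injective
  have h2' : (2 : OB K ⧸ Q) ≠ 0 := by
    intro h3
    have h4 : ι (Ideal.Quotient.mk v.asIdeal 2) = 0 := by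
      rw [hιmk, map_ofNat, map_ofNat]
      exact h3
    have h5 := (map_eq_zero_iff ι hιinj).1 h4
    exact h2 (Ideal.Quotient.eq_zero_iff_mem.1 h5)
  have hα : red α ^ 2 = ι (Ideal.Quotient.mk v.asIdeal d) := by
    rw [hιmk, ← h, map_pow]
  have hα0 : red α ≠ 0 := by
    intro h3
    rw [h3, zero_pow two_ne_zero] at hα
    exact hd0 ((map_eq_zero_iff ι hιinj).1 hα.symm)
  have hnv : Ideal.absNorm v.asIdeal = Fintype.card (kv v) := by rw [card_kv]; rfl
  have hodd : Fintype.card (kv v) % 2 = 1 := FiniteField.odd_card_of_char_ne_two c1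
  have hfr : red (σ • α) = red α ^ Fintype.card (kv v) := by
    have h3 := hQσ α
    rw [← Ideal.Quotient.mk_eq_mk_iff_sub_mem, map_pow, hnv] at h3
    exact h3
  have hchi1 : ι ((quadraticChar (kv v) (Ideal.Quotient.mk v.asIdeal d) : ℤ) : kv v) = red α ^ (Fintype.card (kv v) - 1) := by
    rw [quadraticChar_eq_pow_of_char_ne_two' c1, map_pow, ← hα, ← pow_mul]
    congr 1
    omega
  have hyq : red α ^ (Fintype.card (kv v) - 1) * red α = red (σ • α) := by
    rw [hfr, ← pow_succ]
    congr 1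
    have := Fintype.card_pos (α := kv v)
    omega
  unfold qs
  rw [if_neg h2]
  rcases psi_apply h hd σ with ⟨e1, e2⟩ | ⟨e1, e2⟩
  · rw [e1]
    rw [e2] at hyq
    have h3 : red α ^ (Fintype.card (kv v) - 1) = 1 := mul_right_cancel₀ hα0 (hyq.trans (one_mul _).symm)
    rw [h3] at hchi1
    rcases quadraticChar_dichotomy hd0 with h4 | h4
    · rw [h4]; simp
    · rw [h4] at hchi1
      exfalso
      push_cast at hchi1
      rw [map_neg, map_one] at hchi1
      apply h2'
      linear_combination -hchi1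
  · rw [e1]
    rw [e2, map_neg] at hyq
    have h3 : red α ^ (Fintype.card (kv v) - 1) = -1 := mul_right_cancel₀ hα0 (hyq.trans (neg_one_mul _).symm)
    rw [h3] at hchi1
    rcases quadraticChar_dichotomy hd0 with h4 | h4
    · rw [h4] at hchi1
      exfalso
      push_cast at hchi1
      rw [map_one] at hchi1
      apply h2'
      linear_combination hchi1
    · rw [h4]; simp

/-- **The mean value of a quadratic symbol.** -/
theorem qs_avg (hd : d ≠ 0) (hs : ¬ IsSquare (algebraMap (𝓞 K) K d)) : HasAvg K (qs d) 0 := by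
  obtain ⟨α, h⟩ := exists_root d
  have h1 := avg_class (psi h hd) (psi_surj h hd hs) (psi_open h hd) (fun u => ((u : ℤ) : ℝ)) (fun g k => by
    rw [mul_comm k g, mul_assoc, mul_inv_cancel, mul_one]) (qs d) (by
      refine (fin_mem (N := 2 * d) (mul_ne_zero two_ne_zero hd)).subset fun v hv => ?_
      by_contra h2
      exact hv fun σ hσ => psi_frob h hd h2 hσ)
  have h2 : (∑ u : ℤˣ, ((u : ℤ) : ℝ)) = 0 := by
    have : (Finset.univ : Finset ℤˣ) = {1, -1} := by decide
    rw [this, Finset.sum_pair (by decide)]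
    simp
  rwa [h2, zero_div] at h1

theorem qs_avg_mul {d e : 𝓞 K} (hd : d ≠ 0) (he : e ≠ 0) (hs : ¬ IsSquare (algebraMap (𝓞 K) K (d * e))) :
    HasAvg K (fun v => qs d v * qs e v) 0 := by
  have h := qs_avg (mul_ne_zero hd he) hs
  have e1 : qs (d * e) = fun v => qs d v * qs e v := funext fun v => qs_mul d e v
  rwa [e1] at h

end

end Run7.h61.JT
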