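import Pool.Agent.Run7.h61.JT.Defs
import Pool.Agent.Run7.h61.JT.G1
import Pool.Agent.Run7.h61.JT.Quad
import Pool.Agent.Run7.h61.JT.Mod

/-!
# The products of Birch and Swinnerton-Dyer of the quadratic twists
-/

set_option autoImplicit false
set_option linter.unusedSectionVars false

namespace Run7.h61.JT

open NumberField IsDedekindDomain Polynomial
open Run7.h876.MM (nv kv card_kv instFieldKv instFintypeKv instDecKv nv_pos ring_char_two SZ mem_SZ)
open Run7.h876.EN (affinePoints affinePoints_eq card_pts_ext T_one)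
open Run7.h876.HY (GoodAt frobTrace)
open Pool.Agent.H341R2.Sharp (T)
open Run7.h61.TW Run7.h61.HK
open Run7.h9.BS (bsd points)

section
variable {K : Type} [Field K] [NumberField K]

/-- the parameters over the residue field -/
noncomputable def rt (v : HeightOneSpectrum (𝓞 K)) (t : Fin 2 ⊕ Empty → 𝓞 K) : kv v × kv v :=
  (Ideal.Quotient.mk v.asIdeal (t (Sum.inl 0)), Ideal.Quotient.mk v.asIdeal (t (Sum.inl 1)))

theorem map_cubic (v : HeightOneSpectrum (𝓞 K)) (t : Fin 2 ⊕ Empty → 𝓞 K) :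
    (cubic t).map (Ideal.Quotient.mk v.asIdeal) = G1.fc (rt v t) := by
  rw [G1.fc_eq]
  unfold cubic rt
  simp only [Polynomial.map_add, Polynomial.map_mul, Polynomial.map_pow, map_X, map_C]

theorem map_twist (v : HeightOneSpectrum (𝓞 K)) (d : 𝓞 K) (t : Fin 2 ⊕ Empty → 𝓞 K) :
    (twist d t).map (Ideal.Quotient.mk v.asIdeal) =
      G1.fc ((Ideal.Quotient.mk v.asIdeal d) ^ 2 * (rt v t).1, (Ideal.Quotient.mk v.asIdeal d) ^ 3 * (rt v t).2) := by
  rw [G1.fc_eq]
  unfold twist rt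
  simp only [Polynomial.map_add, Polynomial.map_mul, Polynomial.map_pow, map_X, map_C, map_mul, map_pow]

theorem deg_cubic (t : Fin 2 ⊕ Empty → 𝓞 K) : (cubic t).natDegree = 3 := by
  unfold cubic
  compute_degree!

theorem deg_twist (d : 𝓞 K) (t : Fin 2 ⊕ Empty → 𝓞 K) : (twist d t).natDegree = 3 := by
  unfold twist
  compute_degree!

theorem char_ne {v : HeightOneSpectrum (𝓞 K)} (h2 : (2 : 𝓞 K) ∉ v.asIdeal) : ringChar (kv v) ≠ 2 := by
  intro hc
  have := ring_char_two hc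
  apply h2
  refine Ideal.Quotient.eq_zero_iff_mem.1 ?_
  rw [map_ofNat]
  exact this

theorem frob_cubic {v : HeightOneSpectrum (𝓞 K)} (h2 : (2 : 𝓞 K) ∉ v.asIdeal) (t : Fin 2 ⊕ Empty → 𝓞 K) (m : ℕ) :
    frobTrace (cubic t) v (m + 1) = -T (G1.fc (rt v t)) (m + 1) := by
  unfold frobTrace
  have h := affinePoints_eq (char_ne h2) (G1.fc (rt v t)) (m := m + 1) (by omega)
  rw [card_kv] at h
  rw [map_cubic, h, deg_cubic, if_pos (by decide)]
  push_cast
  ring

theorem points_eq {v : HeightOneSpectrum (𝓞 K)} (h2 : (2 : 𝓞 K) ∉ v.asIdeal) (d : 𝓞 K) (t : Fin 2 ⊕ Empty → 𝓞 K) :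
    (points (twist d t) v : ℝ) = Fintype.card (kv v) + 1 +
      T (G1.fc ((Ideal.Quotient.mk v.asIdeal d) ^ 2 * (rt v t).1, (Ideal.Quotient.mk v.asIdeal d) ^ 3 * (rt v t).2)) 1 := by
  unfold points
  rw [map_twist, deg_twist, if_pos (by decide), T_one (char_ne h2)]
  have h := card_pts_ext (char_ne h2) (fun x => (G1.fc ((Ideal.Quotient.mk v.asIdeal d) ^ 2 * (rt v t).1, (Ideal.Quotient.mk v.asIdeal d) ^ 3 * (rt v t).2)).eval x)
  have h' : ((Nat.card {P : kv v × kv v // P.2 ^ 2 = (G1.fc ((Ideal.Quotient.mk v.asIdeal d) ^ 2 * (rt v t).1, (Ideal.Quotient.mk v.asIdeal d) ^ 3 * (rt v t).2)).eval P.1} : ℕ) : ℝ) =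
      ((Fintype.card (kv v) + ∑ x : kv v, quadraticChar (kv v) ((G1.fc ((Ideal.Quotient.mk v.asIdeal d) ^ 2 * (rt v t).1, (Ideal.Quotient.mk v.asIdeal d) ^ 3 * (rt v t).2)).eval x) : ℤ) : ℝ) := by
    rw [← h]
    rfl
  push_cast at h' ⊢
  rw [h']
  ring

open Classical in
theorem local_eq {d : 𝓞 K} (t : Fin 2 ⊕ Empty → 𝓞 K) (v : HeightOneSpectrum (𝓞 K)) :
    Real.log (if GoodAt (twist d t) v then (points (twist d t) v : ℝ) / nv v else 1) = -ll (cubic t) (qs d v) v := by
  by_cases h2 : (2 : 𝓞 K) ∈ v.asIdeal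
  · have e1 : ¬ GoodAt (twist d t) v := fun h => h.1 h2
    have e2 : ¬ GoodAt (cubic t) v := fun h => h.1 h2
    unfold ll
    rw [if_neg e1, if_neg e2, Real.log_one, neg_zero]
  have hc := char_ne h2
  by_cases hd : d ∈ v.asIdeal
  · have hd0 : Ideal.Quotient.mk v.asIdeal d = 0 := Ideal.Quotient.eq_zero_iff_mem.2 hd
    have e1 : ¬ GoodAt (twist d t) v := by
      rintro ⟨_, h⟩
      rw [map_twist, hd0] at h
      have h3 := h.squarefree
      have h4 : G1.fc ((0 : kv v) ^ 2 * (rt v t).1, (0 : kv v) ^ 3 * (rt v t).2) = X * X * X := by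
        rw [G1.fc_eq]
        simp only [ne_eq, OfNat.ofNat_ne_zero, not_false_eq_true, zero_pow, zero_mul, C_0, add_zero]
        ring
      rw [h4] at h3
      exact not_isUnit_X (h3 X (Dvd.intro _ rfl))
    have e2 : qs d v = 0 := by
      unfold qs
      rw [if_neg h2, hd0, MulChar.map_zero]
      simp
    rw [if_neg e1, Real.log_one, e2]
    unfold ll
    split_ifs
    · simp
    · simp
  have hd0 : Ideal.Quotient.mk v.asIdeal d ≠ 0 := fun h => hd (Ideal.Quotient.eq_zero_iff_mem.1 h)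
  have hq : qs d v = ((quadraticChar (kv v) (Ideal.Quotient.mk v.asIdeal d) : ℤ) : ℝ) := by
    unfold qs
    rw [if_neg h2]
  by_cases hs : (G1.fc (rt v t)).Separable
  · have e1 : GoodAt (twist d t) v := by
      refine ⟨h2, ?_⟩
      rw [map_twist]
      refine G1.sep_twist (d := (Ideal.Quotient.mk v.asIdeal d)⁻¹) (inv_ne_zero hd0) ?_
      have e3 : ((Ideal.Quotient.mk v.asIdeal d)⁻¹ ^ 2 * ((Ideal.Quotient.mk v.asIdeal d) ^ 2 * (rt v t).1),
          (Ideal.Quotient.mk v.asIdeal d)⁻¹ ^ 3 * ((Ideal.Quotient.mk v.asIdeal d) ^ 3 * (rt v t).2)) = rt v t := by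
        refine Prod.ext ?_ ?_
        · show (Ideal.Quotient.mk v.asIdeal d)⁻¹ ^ 2 * ((Ideal.Quotient.mk v.asIdeal d) ^ 2 * (rt v t).1) = (rt v t).1
          rw [← mul_assoc, ← mul_pow, inv_mul_cancel₀ hd0, one_pow, one_mul]
        · show (Ideal.Quotient.mk v.asIdeal d)⁻¹ ^ 3 * ((Ideal.Quotient.mk v.asIdeal d) ^ 3 * (rt v t).2) = (rt v t).2
          rw [← mul_assoc, ← mul_pow, inv_mul_cancel₀ hd0, one_pow, one_mul]
      rw [e3]
      exact hs
    have e2 : GoodAt (cubic t) v := ⟨h2, by rw [map_cubic]; exact hs⟩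
    have hq2 : qs d v ^ 2 = 1 := by
      rw [hq]
      exact_mod_cast quadraticChar_sq_one hd0
    have hz := G1.zeta_log hc hs hq2
    unfold ll
    rw [if_pos e1, if_pos e2, points_eq h2, G1.twist hc hd0]
    have e4 : ∀ m : ℕ, (frobTrace (cubic t) v (m + 1) : ℝ) = -(T (G1.fc (rt v t)) (m + 1) : ℝ) := by
      intro m
      rw [frob_cubic h2]
      push_cast
      ring
    simp only [e4]
    rw [card_kv] at hz
    rw [hz, card_kv, hq, neg_neg]
    push_cast
    rfl
  · have e1 : ¬ GoodAt (twist d t) v := by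
      rintro ⟨_, h⟩
      rw [map_twist] at h
      exact hs (G1.sep_twist hd0 h)
    have e2 : ¬ GoodAt (cubic t) v := by
      rintro ⟨_, h⟩
      rw [map_cubic] at h
      exact hs h
    unfold ll
    rw [if_neg e1, if_neg e2, Real.log_one, neg_zero]

theorem points_pos {d : 𝓞 K} (t : Fin 2 ⊕ Empty → 𝓞 K) (v : HeightOneSpectrum (𝓞 K)) : (points (twist d t) v : ℝ) ≠ 0 := by
  unfold points
  have : (if Odd (twist d t).natDegree then 1 else 2) ≠ 0 := by split_ifs <;> norm_num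
  exact_mod_cast (by omega)

/-- **The logarithm of the product of Birch and Swinnerton-Dyer of a quadratic twist.** -/
theorem log_twist (d : 𝓞 K) (t : Fin 2 ⊕ Empty → 𝓞 K) (Z : ℕ) :
    Real.log (bsd Z (twist d t)) = -LX Z ((ellFam K).member t) (qs d) := by
  classical
  unfold bsd LX
  rw [Real.log_prod]
  · rw [member_eq, ← Finset.sum_neg_distrib]
    exact Finset.sum_congr rfl fun v _ => local_eq t v
  · intro v _
    split_ifs
    · exact div_ne_zero (points_pos t v) (nv_pos v).ne'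
    · exact one_ne_zero

end

end Run7.h61.JT
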