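import Pool.Agent.Run7.h61.JT.Mod

/-!
# The joint central limit theorem for the twists by several quadratic characters
-/

set_option autoImplicit false
set_option linter.unusedSectionVars false

namespace Run7.h61.JT

open NumberField IsDedekindDomain Finset Filter Topology Polynomial MeasureTheory ProbabilityTheory
open Pool.Agent.W401.Cheb (GK IsFrob IsInert)
open Run7.h876.MM (nv kv two_le_nv nv_pos xv norm_xv instFieldKv instFintypeKv instDecKv SZ mem_SZ)
open Run7.h876.EN
open Run7.h876.HY (GoodAt frobTrace)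
open Run7.h61.TW Run7.h61.HK
open Run7.h9.BS (VZ VZ_atTop prop)
open scoped RealInnerProductSpace

section
variable {K : Type} [Field K] [NumberField K] {n : ℕ} {χ : Fin n → HeightOneSpectrum (𝓞 K) → ℝ}
variable {ι : Type} [Fintype ι] [DecidableEq ι] (ω : Module.Basis ι ℤ (𝓞 K))

variable (K) in
/-- the data of the family of all curves -/
noncomputable def eD : TD K (Fin 2 ⊕ Empty) := (ellFam K).data (R := 0) le_rfl (r := fun _ _ => 0) (fun _ _ => by simp) ellFam_fin

/-- the exponent of the main term -/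
noncomputable def AZ (χ : Fin n → HeightOneSpectrum (𝓞 K) → ℝ) (Z : ℕ) (κ : Fin n → ℂ) : ℂ :=
  ∑ p ∈ pairs n, κ p.1 * κ p.2 * TT Z (fun v => χ p.1 v * χ p.2 v) + ∑ i, (κ i ^ 2 - κ i) / 2 * TT Z (fun v => χ i v ^ 2)

theorem bk_le (hχ : ∀ i v, |χ i v| ≤ 1) (κ : Fin n → ℂ) (v : HeightOneSpectrum (𝓞 K)) (m : ℕ) :
    ‖∑ i, κ i * (χ i v : ℂ) ^ (m + 1)‖ ≤ ∑ i, ‖κ i‖ := by
  refine (norm_sum_le _ _).trans (Finset.sum_le_sum fun i _ => ?_)
  rw [norm_mul, norm_pow, Complex.norm_real, Real.norm_eq_abs]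
  exact mul_le_of_le_one_right (norm_nonneg _) (pow_le_one₀ (abs_nonneg _) (hχ i v))

theorem modG (n : ℕ) {θ : ℝ} (hθ : 0 < θ) {ε : ℝ} (hε : 0 < ε) :
    ∃ Z₀ : ℕ, ∀ Z : ℕ, Z₀ ≤ Z → ∀ H : Fin 2 ⊕ Empty → ℕ, (∀ j, Real.exp ((Z : ℝ) ^ (1 + θ)) ≤ H j) →
      ∀ χ : Fin n → HeightOneSpectrum (𝓞 K) → ℝ, (∀ i v, |χ i v| ≤ 1) → ∀ κ : Fin n → ℂ, ∑ i, ‖κ i‖ ≤ 1 →
      ‖mean ω H (ellFam K).smooth (fun t => Complex.exp (∑ i, κ i * LX Z ((ellFam K).member t) (χ i))) * Complex.exp (-AZ χ Z κ) -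
        GG (eD K) (fun v m => ∑ i, κ i * (χ i v : ℂ) ^ (m + 1)) 1‖ ≤ ε := by
  obtain ⟨Z₀, hZ₀⟩ := main2U (ellFam K) (R := 0) le_rfl (r := fun _ _ => 0) (fun _ _ => by simp) ellFam_fin ω
    (β := 1) zero_le_one (σ := 1) (by norm_num) hθ hε
  refine ⟨Z₀, fun Z hZ H hH χ hχ κ hκ => ?_⟩
  have h := hZ₀ Z hZ H hH (fun v m => ∑ i, κ i * (χ i v : ℂ) ^ (m + 1)) (fun v m => (bk_le hχ κ v m).trans hκ) 1 (by simp)
  rw [eulerZ_zero, one_mul, show (2 : ℂ) * 1 - 1 = 1 by norm_num, eulerZ_lin hχ] at h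
  simp only [twPartial_lin (ellFam K) hχ] at h
  rw [← Complex.exp_neg] at h
  exact h

open Classical in
/-- **The joint central limit theorem.** -/
theorem jclt (hχ : ∀ i v, |χ i v| ≤ 1) (hsq : ∀ i, {v | χ i v ^ 2 ≠ 1}.Finite)
    (hort : ∀ i j, i ≠ j → HasAvg K (fun v => χ i v * χ j v) 0) {θ : ℝ} (hθ : 0 < θ)
    {B : Fin n → Set ℝ} (hB : ∀ i, MeasurableSet (B i)) (hF : ∀ i, gaussianReal 0 1 (frontier (B i)) = 0) {ε : ℝ} (hε : 0 < ε) :
    ∃ Z₀ : ℕ, ∀ Z : ℕ, Z₀ ≤ Z → ∀ H : Fin 2 ⊕ Empty → ℕ, (∀ j, Real.exp ((Z : ℝ) ^ (1 + θ)) ≤ H j) →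
      |prop ω H (ellFam K).smooth (fun t => ∀ i, (LX Z ((ellFam K).member t) (χ i) + VZ K Z / 2) / Real.sqrt (VZ K Z) ∈ B i) -
        ∏ i, (gaussianReal 0 1).real (B i)| ≤ ε := by
  by_contra hcon
  push Not at hcon
  obtain ⟨Z₁, hZ₁⟩ := Run7.h876.PW.nonempty_thick ω ((ellFam K).thin_smooth ω)
  obtain ⟨Z₂, hZ₂⟩ := Filter.eventually_atTop.1 ((VZ_atTop (K := K)).eventually_ge_atTop 1)
  choose Zn hZn Hn hHn hbad using fun m : ℕ => hcon (max m (max (max Z₁ 1) Z₂))
  have hZnn : ∀ m, m ≤ Zn m := fun m => (le_max_left _ _).trans (hZn m)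
  have hZn1 : ∀ m, max Z₁ 1 ≤ Zn m := fun m => ((le_max_left _ _).trans (le_max_right _ _)).trans (hZn m)
  have hV1 : ∀ m, 1 ≤ VZ K (Zn m) := fun m => hZ₂ _ (((le_max_right _ _).trans (le_max_right _ _)).trans (hZn m))
  set V : ℕ → ℝ := fun m => VZ K (Zn m) with hV
  have hZt : Tendsto Zn atTop atTop := tendsto_atTop_mono hZnn tendsto_id
  have hVt : Tendsto V atTop atTop := VZ_atTop.comp hZt
  have hVpos : ∀ m, 0 < V m := fun m => lt_of_lt_of_le one_pos (hV1 m)
  set S : ℕ → Finset ((Fin 2 ⊕ Empty) × ι → ℤ) := fun m => (box ι (Hn m)).filter fun c => tuple ω c ∈ (ellFam K).smooth with hS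
  have hSne : ∀ m, (S m).Nonempty := fun m => hZ₁ (Zn m) ((le_max_left _ _).trans (hZn1 m)) (Hn m) (fun j => by
    have h1 : (1 : ℝ) ≤ Zn m := by exact_mod_cast (le_max_right _ _).trans (hZn1 m)
    have h2 : (Zn m : ℝ) ≤ (Zn m : ℝ) ^ (1 + θ) := by
      calc (Zn m : ℝ) = (Zn m : ℝ) ^ (1 : ℝ) := (Real.rpow_one _).symm
        _ ≤ _ := Real.rpow_le_rpow_of_exponent_le h1 (by linarith)
    have h3 := Real.add_one_le_exp ((Zn m : ℝ) ^ (1 + θ))
    have h4 := hHn m j
    have h5 : (Zn m : ℝ) ≤ Hn m j := by linarith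
    exact_mod_cast h5)
  set Y : ℕ → ((Fin 2 ⊕ Empty) × ι → ℤ) → EuclideanSpace ℝ (Fin n) := fun m c =>
    WithLp.toLp 2 (fun i => (LX (Zn m) ((ellFam K).member (tuple ω c)) (χ i) + V m / 2) / Real.sqrt (V m)) with hY
  have key := joint S hSne Y (fun u => ?_) hB hF
  · obtain ⟨N, hN⟩ := Metric.tendsto_atTop.1 key ε hε
    have h1 := hN N le_rfl
    rw [Real.dist_eq] at h1
    have h2 := hbad N
    have e : prop ω (Hn N) (ellFam K).smooth (fun t => ∀ i, (LX (Zn N) ((ellFam K).member t) (χ i) + VZ K (Zn N) / 2) / Real.sqrt (VZ K (Zn N)) ∈ B i) =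
        (((S N).filter fun c => ∀ i, Y N c i ∈ B i).card : ℝ) / (S N).card := by
      unfold prop
      congr 2
      simp only [hS, Finset.filter_filter, hY]
      congr 1
    rw [e] at h2
    linarith
  · -- the characteristic functions
    set κ : ℕ → Fin n → ℂ := fun m i => Complex.I * ((u i / Real.sqrt (V m) : ℝ) : ℂ) with hκ
    have hsqt : Tendsto (fun m => Real.sqrt (V m)) atTop atTop := Real.tendsto_sqrt_atTop.comp hVt
    have hκt : Tendsto (fun m => ∑ i, ‖κ m i‖) atTop (𝓝 0) := by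
      have h1 : ∀ i : Fin n, Tendsto (fun m => ‖κ m i‖) atTop (𝓝 0) := by
        intro i
        have h2 : Tendsto (fun m => |u i / Real.sqrt (V m)|) atTop (𝓝 0) := by
          have := (hsqt.const_div_atTop (u i)).abs
          rwa [abs_zero] at this
        refine h2.congr fun m => ?_
        simp only [hκ]
        rw [norm_mul, Complex.norm_I, one_mul, Complex.norm_real, Real.norm_eq_abs]
      have := tendsto_finsetSum (Finset.univ : Finset (Fin n)) fun i _ => h1 i
      simpa using this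
    set A : ℕ → ℂ := fun m => mean ω (Hn m) (ellFam K).smooth (fun t => Complex.exp (∑ i, κ m i * LX (Zn m) ((ellFam K).member t) (χ i))) *
      Complex.exp (-AZ χ (Zn m) (κ m)) with hA
    have hA1 : Tendsto A atTop (𝓝 1) := by
      rw [Metric.tendsto_atTop]
      intro δ hδ
      obtain ⟨δ₁, hδ₁, hδ₂, hG⟩ := GG_small (eD K) (ε := δ / 3) (by positivity)
      obtain ⟨Z₃, hZ₃⟩ := modG ω n hθ (ε := δ / 3) (by positivity)
      obtain ⟨N, hN⟩ := Filter.eventually_atTop.1 (hκt.eventually (gt_mem_nhds hδ₁))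
      refine ⟨max N Z₃, fun m hm => ?_⟩
      have k1 := (hN m ((le_max_left _ _).trans hm)).le
      have k2 := hZ₃ (Zn m) (((le_max_right _ _).trans hm).trans (hZnn m)) (Hn m) (hHn m) χ hχ (κ m) (k1.trans hδ₂)
      have k3 := hG (fun v l => ∑ i, κ m i * (χ i v : ℂ) ^ (l + 1)) (fun v l => (bk_le hχ (κ m) v l).trans k1)
      rw [dist_eq_norm]
      have e : A m - 1 = (A m - GG (eD K) (fun v l => ∑ i, κ m i * (χ i v : ℂ) ^ (l + 1)) 1) +
          (GG (eD K) (fun v l => ∑ i, κ m i * (χ i v : ℂ) ^ (l + 1)) 1 - 1) := by ring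
      rw [e]
      refine (norm_add_le _ _).trans_lt ?_
      linarith
    set D : ℕ → ℂ := fun m => AZ χ (Zn m) (κ m) + ∑ i, κ m i * (V m / 2) with hD
    have hfin : ∀ m, (∑ c ∈ S m, Complex.exp (⟪Y m c, u⟫ * Complex.I)) / (S m).card = A m * Complex.exp (D m) := by
      intro m
      have e1 : ∀ c, Complex.exp (⟪Y m c, u⟫ * Complex.I) =
          Complex.exp (∑ i, κ m i * LX (Zn m) ((ellFam K).member (tuple ω c)) (χ i)) * Complex.exp (∑ i, κ m i * (V m / 2)) := by
        intro c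
        rw [← Complex.exp_add, ← Finset.sum_add_distrib, PiLp.inner_apply, Complex.ofReal_sum, Finset.sum_mul]
        congr 1
        refine Finset.sum_congr rfl fun i _ => ?_
        simp only [hY, hκ, RCLike.inner_apply, conj_trivial]
        push_cast
        ring
      simp only [hA, hD]
      rw [Complex.exp_add, mul_assoc, ← mul_assoc (Complex.exp (-_)), ← Complex.exp_add, neg_add_cancel, Complex.exp_zero, one_mul]
      unfold mean
      simp only [e1]
      rw [← Finset.sum_mul]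
      ring
    have hDt : Tendsto D atTop (𝓝 (-‖u‖ ^ 2 / 2)) := by
      have hs2 : ∀ m, Real.sqrt (V m) ^ 2 = V m := fun m => Real.sq_sqrt (hVpos m).le
      have hs0 : ∀ m, Real.sqrt (V m) ≠ 0 := fun m => (Real.sqrt_pos.2 (hVpos m)).ne'
      have hDe : ∀ m, D m = ((∑ p ∈ pairs n, -(u p.1 * u p.2 * (TT (Zn m) (fun v => χ p.1 v * χ p.2 v) / V m)) +
          ∑ i, -(u i ^ 2 / 2 * (TT (Zn m) (fun v => χ i v ^ 2) / V m)) : ℝ) : ℂ) +
          ∑ i, Complex.I * ((u i / 2 * ((V m - TT (Zn m) (fun v => χ i v ^ 2)) / Real.sqrt (V m)) : ℝ) : ℂ) := by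
        intro m
        have hI : ∀ a b : ℝ, Complex.I * ((a / Real.sqrt (V m) : ℝ) : ℂ) * (Complex.I * ((b / Real.sqrt (V m) : ℝ) : ℂ)) =
            ((-(a * b / V m) : ℝ) : ℂ) := by
          intro a b
          have e : Complex.I * ((a / Real.sqrt (V m) : ℝ) : ℂ) * (Complex.I * ((b / Real.sqrt (V m) : ℝ) : ℂ)) =
              (Complex.I * Complex.I) * (((a / Real.sqrt (V m)) * (b / Real.sqrt (V m)) : ℝ) : ℂ) := by
            push_cast; ring
          rw [e, Complex.I_mul_I, div_mul_div_comm, ← sq (Real.sqrt (V m)), hs2]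
          push_cast
          ring
        simp only [hD, AZ]
        rw [Complex.ofReal_add, Complex.ofReal_sum, Complex.ofReal_sum, add_assoc, ← Finset.sum_add_distrib, add_assoc, ← Finset.sum_add_distrib]
        congr 1
        · refine Finset.sum_congr rfl fun p _ => ?_
          simp only [hκ]
          rw [hI]
          push_cast
          ring
        · refine Finset.sum_congr rfl fun i _ => ?_
          have e2 : κ m i ^ 2 = ((-(u i * u i / V m) : ℝ) : ℂ) := by
            rw [sq]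
            exact hI (u i) (u i)
          rw [e2]
          simp only [hκ]
          push_cast
          ring
      have l1 : Tendsto (fun m => (∑ p ∈ pairs n, -(u p.1 * u p.2 * (TT (Zn m) (fun v => χ p.1 v * χ p.2 v) / V m)) +
          ∑ i, -(u i ^ 2 / 2 * (TT (Zn m) (fun v => χ i v ^ 2) / V m)) : ℝ)) atTop (𝓝 (-(‖u‖ ^ 2 / 2))) := by
        have a1 : Tendsto (fun m => ∑ p ∈ pairs n, -(u p.1 * u p.2 * (TT (Zn m) (fun v => χ p.1 v * χ p.2 v) / V m))) atTop (𝓝 0) := by
          have h1 : ∀ p ∈ pairs n, Tendsto (fun m => -(u p.1 * u p.2 * (TT (Zn m) (fun v => χ p.1 v * χ p.2 v) / V m))) atTop (𝓝 0) := by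
            intro p hp
            have hne : p.1 ≠ p.2 := by
              have := (Finset.mem_filter.1 hp).2
              exact ne_of_lt this
            have h2 := (TT_avg (fun v => chi_mul hχ p.1 p.2 v) (hort p.1 p.2 hne)).comp hZt
            have h3 := (h2.const_mul (u p.1 * u p.2)).neg
            rw [mul_zero, neg_zero] at h3
            exact h3
          have := tendsto_finsetSum (pairs n) h1
          simpa using this
        have a2 : Tendsto (fun m => ∑ i, -(u i ^ 2 / 2 * (TT (Zn m) (fun v => χ i v ^ 2) / V m))) atTop (𝓝 (∑ i, -(u i ^ 2 / 2))) := by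
          refine tendsto_finsetSum _ fun i _ => ?_
          have h2 : Tendsto (fun m => TT (Zn m) (fun v => χ i v ^ 2) / V m) atTop (𝓝 1) := by
            obtain ⟨C, hC⟩ := TT_fin (c := fun v => χ i v ^ 2) (hsq i)
            have h4 : Tendsto (fun m => C / V m) atTop (𝓝 0) := hVt.const_div_atTop C
            have h3 : Tendsto (fun m => (TT (Zn m) (fun v => χ i v ^ 2) - V m) / V m) atTop (𝓝 0) := by
              refine squeeze_zero_norm (fun m => ?_) h4
              rw [norm_div, Real.norm_eq_abs, Real.norm_eq_abs, abs_of_pos (hVpos m)]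
              exact div_le_div_of_nonneg_right (hC (Zn m)) (hVpos m).le
            have h5 := h3.add_const 1
            rw [zero_add] at h5
            refine h5.congr fun m => ?_
            rw [sub_div, div_self (hVpos m).ne']
            ring
          have h3 := (h2.const_mul (u i ^ 2 / 2)).neg
          rwa [mul_one] at h3
        have h6 := a1.add a2
        rw [zero_add] at h6
        have e6 : ∑ i, -(u i ^ 2 / 2) = -(‖u‖ ^ 2 / 2) := by
          rw [EuclideanSpace.real_norm_sq_eq, Finset.sum_neg_distrib, Finset.sum_div]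
        rw [e6] at h6
        exact h6
      have l2 : Tendsto (fun m => ∑ i, Complex.I * ((u i / 2 * ((V m - TT (Zn m) (fun v => χ i v ^ 2)) / Real.sqrt (V m)) : ℝ) : ℂ)) atTop (𝓝 0) := by
        have h1 : ∀ i ∈ (Finset.univ : Finset (Fin n)), Tendsto (fun m => Complex.I * ((u i / 2 * ((V m - TT (Zn m) (fun v => χ i v ^ 2)) / Real.sqrt (V m)) : ℝ) : ℂ)) atTop (𝓝 0) := by
          intro i _
          obtain ⟨C, hC⟩ := TT_fin (c := fun v => χ i v ^ 2) (hsq i)
          have h4 : Tendsto (fun m => C / Real.sqrt (V m)) atTop (𝓝 0) := hsqt.const_div_atTop C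
          have h3 : Tendsto (fun m => (V m - TT (Zn m) (fun v => χ i v ^ 2)) / Real.sqrt (V m)) atTop (𝓝 0) := by
            refine squeeze_zero_norm (fun m => ?_) h4
            rw [norm_div, Real.norm_eq_abs, Real.norm_eq_abs, abs_of_pos (Real.sqrt_pos.2 (hVpos m)), abs_sub_comm]
            exact div_le_div_of_nonneg_right (hC (Zn m)) (Real.sqrt_nonneg _)
          have h5 := h3.const_mul (u i / 2)
          rw [mul_zero] at h5
          have h6 := ((Complex.continuous_ofReal.tendsto 0).comp h5).const_mul Complex.I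
          rw [Complex.ofReal_zero, mul_zero] at h6
          exact h6
        have := tendsto_finsetSum _ h1
        simpa using this
      have l3 := ((Complex.continuous_ofReal.tendsto _).comp l1).add l2
      rw [add_zero] at l3
      have e7 : (((-(‖u‖ ^ 2 / 2) : ℝ)) : ℂ) = -‖u‖ ^ 2 / 2 := by push_cast; ring
      rw [e7] at l3
      exact l3.congr fun m => (hDe m).symm
    have l4 := hA1.mul ((Complex.continuous_exp.tendsto _).comp hDt)
    rw [one_mul] at l4
    exact l4.congr fun m => (hfin m).symm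

end

end Run7.h61.JT
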