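import Pool.Agent.Run7.h61.HK.Defs
import Pool.Agent.Run7.h61.LD.Defs

/-!
# Quadratic twists
-/

set_option autoImplicit false

namespace Run7.h61.JT

open NumberField Polynomial

/-- The polynomial `x³ + d² t₀ x + d³ t₁`; the curve `y² = x³ + d² t₀ x + d³ t₁` is the quadratic twist
`d y² = x³ + t₀ x + t₁` of `y² = x³ + t₀ x + t₁`. -/
noncomputable def twist {K : Type} [Field K] (d : 𝓞 K) (t : Fin 2 ⊕ Empty → 𝓞 K) : (𝓞 K)[X] :=
  X ^ 3 + (C (d ^ 2 * t (Sum.inl 0)) * X + C (d ^ 3 * t (Sum.inl 1)))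

end Run7.h61.JT
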