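import Pool.Agent.Run7.h61.JT.Bsd
import Pool.Agent.Run7.h61.JT.Clt
import Pool.Agent.Run7.h61.LD.Half
import Pool.Agent.Run7.h61.LD.Fin

/-!
# The joint law of the quadratic twists
-/

set_option autoImplicit false
set_option linter.unusedSectionVars false

namespace Run7.h61.JT

open NumberField IsDedekindDomain Finset Filter Topology Polynomial MeasureTheory ProbabilityTheory
open Run7.h876.MM (nv SZ)
open Run7.h876.EN (box tuple Thin)
open Run7.h61.TW Run7.h61.HK Run7.h61.LD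
open Run7.h9.BS (VZ VZ_atTop prop bsd zetaProd Phi log_zetaProd)
open Run7.h9.BS.LocalData (prop_nonneg prop_mono)

/-! ### the normal law -/

theorem pt_null (a : ℝ) : gaussianReal 0 1 {a} = 0 := by
  have := nullSingletonClass_gaussianReal (μ := 0) (v := 1) one_ne_zero
  exact measure_singleton a

theorem two_null (a b : ℝ) : gaussianReal 0 1 {a, b} = 0 := by
  have h : ({a, b} : Set ℝ) = {a} ∪ {b} := rfl
  rw [h]
  exact measure_union_null (pt_null a) (pt_null b)

theorem Ici_real (a : ℝ) : (gaussianReal 0 1).real (Set.Ici (-a)) = Phi a := by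
  have h : (gaussianReal 0 1).map (fun x => -x) = gaussianReal 0 1 := by
    rw [gaussianReal_map_neg, neg_zero]
  unfold Run7.h9.BS.Phi
  conv_rhs => rw [← h]
  rw [map_measureReal_apply measurable_neg measurableSet_Iic]
  congr 1
  ext x
  simp only [Set.mem_Ici, Set.mem_preimage, Set.mem_Iic]
  constructor <;> intro h <;> linarith

theorem Ioc_real {a b : ℝ} (h : a ≤ b) : (gaussianReal 0 1).real (Set.Ioc a b) = Phi b - Phi a := by
  unfold Run7.h9.BS.Phi
  rw [← Set.Iic_union_Ioc_eq_Iic h, measureReal_union (by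
    rw [Set.disjoint_left]
    intro x hx hx'
    exact absurd hx'.1 (not_lt.2 hx)) measurableSet_Ioc]
  ring

theorem Ioi_real : (gaussianReal 0 1).real (Set.Ioi 0) = 1 / 2 := by
  have h : (Set.Iic (0 : ℝ))ᶜ = Set.Ioi 0 := Set.compl_Iic
  rw [← h, probReal_compl_eq_one_sub measurableSet_Iic]
  have := Phi_zero
  unfold Run7.h9.BS.Phi at this
  rw [this]
  norm_num

theorem Phi_top : Tendsto Phi atTop (𝓝 1) := by
  have h := tendsto_cdf_atTop (gaussianReal 0 1)
  refine h.congr fun x => ?_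
  exact cdf_eq_real _ _

theorem Phi_bot : Tendsto Phi atBot (𝓝 0) := by
  have h := tendsto_cdf_atBot (gaussianReal 0 1)
  refine h.congr fun x => ?_
  exact cdf_eq_real _ _

/-- the set of the values which give the pattern -/
def Bi (e : Fin 2) : Set ℝ := if e = 0 then Set.Ioi 0 else Set.Iic 0

/-- the same set, truncated -/
def BM (M : ℝ) (e : Fin 2) : Set ℝ := if e = 0 then Set.Ioc 0 M else Set.Ioc (-M) 0

theorem Bi_real (e : Fin 2) : (gaussianReal 0 1).real (Bi e) = 1 / 2 := by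
  unfold Bi
  split_ifs
  · exact Ioi_real
  · exact Phi_zero

theorem BM_real (e : Fin 2) : Tendsto (fun M : ℝ => (gaussianReal 0 1).real (BM M e)) atTop (𝓝 (1 / 2)) := by
  unfold BM
  split_ifs
  · have h : Tendsto (fun M : ℝ => Phi M - Phi 0) atTop (𝓝 (1 / 2)) := by
      have := Phi_top.sub_const (Phi 0)
      have e1 : (1 : ℝ) - Phi 0 = 1 / 2 := by rw [Phi_zero]; norm_num
      rwa [e1] at this
    refine h.congr' ?_
    filter_upwards [Filter.eventually_ge_atTop (0 : ℝ)] with M hM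
    rw [Ioc_real hM]
  · have h : Tendsto (fun M : ℝ => Phi 0 - Phi (-M)) atTop (𝓝 (1 / 2)) := by
      have := (Phi_bot.comp tendsto_neg_atTop_atBot).const_sub (Phi 0)
      have e1 : Phi 0 - 0 = 1 / 2 := by rw [Phi_zero]; norm_num
      rw [e1] at this
      exact this
    refine h.congr' ?_
    filter_upwards [Filter.eventually_ge_atTop (0 : ℝ)] with M hM
    rw [Ioc_real (by linarith)]

section
variable {K : Type} [Field K] [NumberField K] {n : ℕ} {d : Fin n → 𝓞 K} (hd : ∀ i, d i ≠ 0)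
  (hij : ∀ i j, i ≠ j → ¬ IsSquare (algebraMap (𝓞 K) K (d i * d j)))
variable {ι : Type} [Fintype ι] [DecidableEq ι] (ω : Module.Basis ι ℤ (𝓞 K))

include hd hij in
theorem base {θ : ℝ} (hθ : 0 < θ) {B : Fin n → Set ℝ} (hB : ∀ i, MeasurableSet (B i))
    (hF : ∀ i, gaussianReal 0 1 (frontier (B i)) = 0) {ε : ℝ} (hε : 0 < ε) :
    ∃ Z₀ : ℕ, ∀ Z : ℕ, Z₀ ≤ Z → ∀ H : Fin 2 ⊕ Empty → ℕ, (∀ j, Real.exp ((Z : ℝ) ^ (1 + θ)) ≤ H j) →
      |prop ω H smooth (fun t => ∀ i, (VZ K Z / 2 - Real.log (bsd Z (twist (d i) t))) / Real.sqrt (VZ K Z) ∈ B i) -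
        ∏ i, (gaussianReal 0 1).real (B i)| ≤ ε := by
  obtain ⟨Z₀, hZ₀⟩ := jclt ω (χ := fun i => qs (d i)) (fun i v => qs_abs (d i) v) (fun i => qs_fin (hd i))
    (fun i j h => qs_avg_mul (hd i) (hd j) (hij i j h)) hθ hB hF hε
  refine ⟨Z₀, fun Z hZ H hH => ?_⟩
  have h := hZ₀ Z hZ H hH
  have e : ∀ (t : Fin 2 ⊕ Empty → 𝓞 K) (i : Fin n), LX Z ((ellFam K).member t) (qs (d i)) + VZ K Z / 2 =
      VZ K Z / 2 - Real.log (bsd Z (twist (d i) t)) := by
    intro t i
    rw [log_twist]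
    ring
  simp only [e, smooth_eq] at h
  exact h

include hd hij in
/-- the joint central limit theorem -/
theorem clt {θ : ℝ} (hθ : 0 < θ) (a : Fin n → ℝ) {ε : ℝ} (hε : 0 < ε) :
    ∃ Z₀ : ℕ, ∀ Z : ℕ, Z₀ ≤ Z → ∀ H : Fin 2 ⊕ Empty → ℕ, (∀ j, Real.exp ((Z : ℝ) ^ (1 + θ)) ≤ H j) →
      |prop ω H smooth (fun t => ∀ i, Real.log (bsd Z (twist (d i) t)) ≤
        1 / 2 * Real.log (zetaProd K Z) + a i * Real.sqrt (Real.log (zetaProd K Z))) - ∏ i, Phi (a i)| ≤ ε := by
  obtain ⟨Z₀, hZ₀⟩ := base hd hij ω hθ (B := fun i => Set.Ici (-(a i))) (fun i => measurableSet_Ici)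
    (fun i => by rw [frontier_Ici]; exact pt_null _) hε
  obtain ⟨Z₁, hZ₁⟩ := Filter.eventually_atTop.1 ((VZ_atTop (K := K)).eventually_gt_atTop 0)
  refine ⟨max Z₀ Z₁, fun Z hZ H hH => ?_⟩
  have h := hZ₀ Z ((le_max_left _ _).trans hZ) H hH
  have hV := hZ₁ Z ((le_max_right _ _).trans hZ)
  have hs := Real.sqrt_pos.2 hV
  simp only [Ici_real] at h
  have e : (fun t => ∀ i, (VZ K Z / 2 - Real.log (bsd Z (twist (d i) t))) / Real.sqrt (VZ K Z) ∈ Set.Ici (-(a i))) =
      fun t => ∀ i, Real.log (bsd Z (twist (d i) t)) ≤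
        1 / 2 * Real.log (zetaProd K Z) + a i * Real.sqrt (Real.log (zetaProd K Z)) := by
    funext t
    refine propext (forall_congr' fun i => ?_)
    rw [Set.mem_Ici, le_div_iff₀ hs, log_zetaProd]
    constructor <;> intro h <;> linarith
  rw [e] at h
  exact h

/-- the rank which the product up to `Z` suggests, for all twists -/
noncomputable def RR (d : Fin n → 𝓞 K) (Z : ℕ) (t : Fin 2 ⊕ Empty → 𝓞 K) : Fin n → ℤ := fun i => rankGuess Z (twist (d i) t)

/-- the pattern as a vector of integers -/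
def pt (e : Fin n → Fin 2) : Fin n → ℤ := fun i => ((e i : ℕ) : ℤ)

theorem pt_inj : Function.Injective (pt (n := n)) := by
  intro e e' h
  funext i
  have := congrFun h i
  unfold pt at this
  exact Fin.ext (by exact_mod_cast this)

include hd hij in
theorem pattern {θ : ℝ} (hθ : 0 < θ) (e : Fin n → Fin 2) {ε : ℝ} (hε : 0 < ε) :
    ∃ Z₀ : ℕ, ∀ Z : ℕ, Z₀ ≤ Z → ∀ H : Fin 2 ⊕ Empty → ℕ, (∀ j, Real.exp ((Z : ℝ) ^ (1 + θ)) ≤ H j) →
      |prop ω H smooth (fun t => RR d Z t = pt e) - (1 / 2) ^ n| ≤ ε := by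
  have hlim : Tendsto (fun M : ℝ => ∏ i, (gaussianReal 0 1).real (BM M (e i))) atTop (𝓝 ((1 / 2) ^ n)) := by
    have := tendsto_finsetProd (Finset.univ : Finset (Fin n)) fun i _ => BM_real (e i)
    rwa [Finset.prod_const, Finset.card_univ, Fintype.card_fin] at this
  obtain ⟨M, hM, hM1⟩ := ((hlim.eventually (lt_mem_nhds (show ((1 : ℝ) / 2) ^ n - ε / 2 < (1 / 2) ^ n by linarith))).and
    (Filter.eventually_gt_atTop (0 : ℝ))).exists
  obtain ⟨Z₀, hZ₀⟩ := base hd hij ω hθ (B := fun i => Bi (e i)) (fun i => by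
      unfold Bi
      split_ifs
      · exact measurableSet_Ioi
      · exact measurableSet_Iic)
    (fun i => by
      unfold Bi
      split_ifs
      · rw [frontier_Ioi]; exact pt_null _
      · rw [frontier_Iic]; exact pt_null _) hε
  obtain ⟨Z₁, hZ₁⟩ := base hd hij ω hθ (B := fun i => BM M (e i)) (fun i => by
      unfold BM
      split_ifs
      · exact measurableSet_Ioc
      · exact measurableSet_Ioc)
    (fun i => by
      unfold BM
      split_ifs
      · rw [frontier_Ioc hM1]; exact two_null _ _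
      · rw [frontier_Ioc (by linarith)]; exact two_null _ _) (ε := ε / 2) (by positivity)
  obtain ⟨Z₂, hZ₂⟩ := Filter.eventually_atTop.1 ((VZ_atTop (K := K)).eventually_gt_atTop (max 0 (M ^ 2)))
  refine ⟨max Z₀ (max Z₁ Z₂), fun Z hZ H hH => ?_⟩
  have h1 := hZ₀ Z ((le_max_left _ _).trans hZ) H hH
  have h2 := hZ₁ Z (((le_max_left _ _).trans (le_max_right _ _)).trans hZ) H hH
  have hV2 := hZ₂ Z (((le_max_right _ _).trans (le_max_right _ _)).trans hZ)
  have hV : 0 < VZ K Z := (le_max_left _ _).trans_lt hV2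
  have hVM : M ^ 2 < VZ K Z := (le_max_right _ _).trans_lt hV2
  have hs := Real.sqrt_pos.2 hV
  have hsM : M < Real.sqrt (VZ K Z) := by
    rw [Real.lt_sqrt hM1.le]
    exact hVM
  have hss : Real.sqrt (VZ K Z) * Real.sqrt (VZ K Z) = VZ K Z := Real.mul_self_sqrt hV.le
  simp only [Bi_real] at h1
  rw [Finset.prod_const, Finset.card_univ, Fintype.card_fin] at h1
  have hV' : 0 < Real.log (zetaProd K Z) := by rw [log_zetaProd]; exact hV
  have hcase : ∀ i : Fin 2, i = 0 ∨ i = 1 := by decide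
  -- the pattern implies the large set
  have k1 : prop ω H smooth (fun t => RR d Z t = pt e) ≤
      prop ω H smooth (fun t => ∀ i, (VZ K Z / 2 - Real.log (bsd Z (twist (d i) t))) / Real.sqrt (VZ K Z) ∈ Bi (e i)) := by
    refine prop_mono ω H fun t ht i => ?_
    have h3 : rankGuess Z (twist (d i) t) = ((e i : ℕ) : ℤ) := congrFun ht i
    rw [guess_iff hV', log_zetaProd] at h3
    unfold Bi
    rcases hcase (e i) with h0 | h0
    · rw [h0, if_pos rfl]
      rw [h0] at h3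
      norm_num at h3
      exact div_pos (by linarith [h3.2]) hs
    · rw [h0, if_neg (by decide)]
      rw [h0] at h3
      norm_num at h3
      refine div_nonpos_of_nonpos_of_nonneg (by linarith [h3.1]) hs.le
  have k2 : prop ω H smooth (fun t => ∀ i, (VZ K Z / 2 - Real.log (bsd Z (twist (d i) t))) / Real.sqrt (VZ K Z) ∈ BM M (e i)) ≤
      prop ω H smooth (fun t => RR d Z t = pt e) := by
    refine prop_mono ω H fun t ht => ?_
    funext i
    show rankGuess Z (twist (d i) t) = ((e i : ℕ) : ℤ)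
    rw [guess_iff hV', log_zetaProd]
    have h3 := ht i
    unfold BM at h3
    rcases hcase (e i) with h0 | h0
    · rw [h0, if_pos rfl] at h3
      rw [h0]
      norm_num
      have h4 := h3.1
      have h5 := h3.2
      rw [lt_div_iff₀ hs, zero_mul] at h4
      rw [div_le_iff₀ hs] at h5
      have h6 : M * Real.sqrt (VZ K Z) ≤ VZ K Z := by
        calc _ ≤ Real.sqrt (VZ K Z) * Real.sqrt (VZ K Z) := mul_le_mul_of_nonneg_right hsM.le hs.le
          _ = _ := hss
      constructor <;> linarith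
    · rw [h0, if_neg (by decide)] at h3
      rw [h0]
      norm_num
      have h4 := h3.1
      have h5 := h3.2
      rw [lt_div_iff₀ hs] at h4
      rw [div_le_iff₀ hs, zero_mul] at h5
      have h6 : M * Real.sqrt (VZ K Z) ≤ VZ K Z := by
        calc _ ≤ Real.sqrt (VZ K Z) * Real.sqrt (VZ K Z) := mul_le_mul_of_nonneg_right hsM.le hs.le
          _ = _ := hss
      constructor <;> linarith
  rw [abs_le] at h1 h2 ⊢
  constructor
  · linarith [h2.1]
  · linarith [h1.2]

open Classical in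
theorem prop_sum (H : Fin 2 ⊕ Empty → ℕ) {κ : Type} [Fintype κ] [DecidableEq κ] (S : Finset κ) (P : κ → (Fin 2 ⊕ Empty → 𝓞 K) → Prop)
    (hP : ∀ t a b, P a t → P b t → a = b) :
    ∑ a ∈ S, prop ω H smooth (P a) = prop ω H smooth (fun t => ∃ a ∈ S, P a t) := by
  have e : ∀ Q : (Fin 2 ⊕ Empty → 𝓞 K) → Prop, prop ω H smooth Q = avgOn ω H smooth (fun t => if Q t then (1 : ℝ) else 0) := by
    intro Q
    rw [avgOn_prop, one_mul]
  simp only [e]
  unfold avgOn
  rw [← Finset.sum_div, Finset.sum_comm]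
  congr 1
  refine Finset.sum_congr rfl fun c _ => ?_
  beta_reduce
  split_ifs with h
  · obtain ⟨a, ha, hPa⟩ := h
    rw [Finset.sum_eq_single a]
    · rw [if_pos hPa]
    · intro b _ hb
      rw [if_neg fun h => hb (hP _ _ _ h hPa)]
    · intro h; exact absurd ha h
  · refine Finset.sum_eq_zero fun a ha => ?_
    rw [if_neg fun h' => h ⟨a, ha, h'⟩]

include hd hij in
/-- **Independent fair coins.** -/
theorem coins {θ : ℝ} (hθ : 0 < θ) {ε : ℝ} (hε : 0 < ε) :
    ∃ Z₀ : ℕ, ∀ Z : ℕ, Z₀ ≤ Z → ∀ H : Fin 2 ⊕ Empty → ℕ, (∀ j, Real.exp ((Z : ℝ) ^ (1 + θ)) ≤ H j) →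
      ∀ A : Set (Fin n → ℤ), |prop ω H smooth (fun t => RR d Z t ∈ A) - (Nat.card {e : Fin n → Fin 2 // pt e ∈ A} : ℝ) / 2 ^ n| ≤ ε := by
  classical
  have hpow : (0 : ℝ) < 2 ^ n := by positivity
  choose z hz using fun e : Fin n → Fin 2 => pattern hd hij ω hθ e (ε := ε / 2 ^ n) (by positivity)
  obtain ⟨Z₁, hZ₁⟩ := Run7.h876.PW.nonempty_thick ω ((ellFam K).thin_smooth ω)
  refine ⟨max (Finset.univ.sup z) (max Z₁ 1), fun Z hZ H hH A => ?_⟩
  have hp : ∀ e, |prop ω H smooth (fun t => RR d Z t = pt e) - (1 / 2) ^ n| ≤ ε / 2 ^ n := fun e =>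
    hz e Z ((Finset.le_sup (Finset.mem_univ e)).trans ((le_max_left _ _).trans hZ)) H hH
  have hne : ((box ι H).filter fun c => tuple ω c ∈ (smooth : Set (Fin 2 ⊕ Empty → 𝓞 K))).Nonempty := by
    rw [← smooth_eq]
    refine hZ₁ Z (((le_max_left _ _).trans (le_max_right _ _)).trans hZ) H fun j => ?_
    have h1 : (1 : ℝ) ≤ Z := by exact_mod_cast ((le_max_right _ _).trans (le_max_right _ _)).trans hZ
    have h2 : (Z : ℝ) ≤ (Z : ℝ) ^ (1 + θ) := by
      calc (Z : ℝ) = (Z : ℝ) ^ (1 : ℝ) := (Real.rpow_one _).symm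
        _ ≤ _ := Real.rpow_le_rpow_of_exponent_le h1 (by linarith)
    have h3 := Real.add_one_le_exp ((Z : ℝ) ^ (1 + θ))
    have h4 := hH j
    have h5 : (Z : ℝ) ≤ H j := by linarith
    exact_mod_cast h5
  have hinj : ∀ (t : Fin 2 ⊕ Empty → 𝓞 K) (a b : Fin n → Fin 2), RR d Z t = pt a → RR d Z t = pt b → a = b :=
    fun t a b ha hb => pt_inj (ha.symm.trans hb)
  obtain ⟨S, hS⟩ : ∃ S : Finset (Fin n → Fin 2), S = Finset.univ.filter fun e => pt e ∈ A := ⟨_, rfl⟩
  have hlow := prop_sum ω H S (fun e t => RR d Z t = pt e) hinj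
  have hup := prop_sum ω H Sᶜ (fun e t => RR d Z t = pt e) hinj
  have h1 : prop ω H smooth (fun t => ∃ a ∈ S, RR d Z t = pt a) ≤ prop ω H smooth (fun t => RR d Z t ∈ A) := by
    refine prop_mono ω H fun t ht => ?_
    obtain ⟨a, ha, hta⟩ := ht
    rw [hta]
    rw [hS] at ha
    exact (Finset.mem_filter.1 ha).2
  have h2 : prop ω H smooth (fun t => ∃ a ∈ Sᶜ, RR d Z t = pt a) ≤ prop ω H smooth (fun t => ¬ RR d Z t ∈ A) := by
    refine prop_mono ω H fun t ht => ?_
    obtain ⟨a, ha, hta⟩ := ht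
    rw [hta]
    rw [hS, Finset.mem_compl, Finset.mem_filter] at ha
    exact fun h => ha ⟨Finset.mem_univ _, h⟩
  have h3 := prop_compl ω H hne (fun t => RR d Z t ∈ A)
  have hcardS : (Nat.card {e : Fin n → Fin 2 // pt e ∈ A} : ℝ) = S.card := by
    rw [Nat.card_eq_fintype_card, Fintype.card_subtype, hS]
  have hcardU : (Sᶜ.card : ℝ) = 2 ^ n - S.card := by
    have h4 := Finset.card_compl_add_card S
    rw [Fintype.card_fun, Fintype.card_fin, Fintype.card_fin] at h4
    have h5 : (Sᶜ.card : ℝ) + S.card = 2 ^ n := by exact_mod_cast h4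
    linarith
  have hhalf : ((1 : ℝ) / 2) ^ n = 1 / 2 ^ n := by rw [div_pow, one_pow]
  have b1 : (S.card : ℝ) * (1 / 2 ^ n - ε / 2 ^ n) ≤ ∑ a ∈ S, prop ω H smooth (fun t => RR d Z t = pt a) := by
    rw [← nsmul_eq_mul, ← Finset.sum_const]
    refine Finset.sum_le_sum fun a _ => ?_
    have := (abs_le.1 (hp a)).1
    rw [hhalf] at this
    linarith
  have b2 : (Sᶜ.card : ℝ) * (1 / 2 ^ n - ε / 2 ^ n) ≤ ∑ a ∈ Sᶜ, prop ω H smooth (fun t => RR d Z t = pt a) := by
    rw [← nsmul_eq_mul, ← Finset.sum_const]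
    refine Finset.sum_le_sum fun a _ => ?_
    have := (abs_le.1 (hp a)).1
    rw [hhalf] at this
    linarith
  have hS0 : (0 : ℝ) ≤ S.card := Nat.cast_nonneg _
  have hC0 : (0 : ℝ) ≤ Sᶜ.card := Nat.cast_nonneg _
  have b3 : (S.card : ℝ) * (ε / 2 ^ n) ≤ ε := by
    rw [mul_div_assoc', div_le_iff₀ hpow, mul_comm]
    exact mul_le_mul_of_nonneg_left (by linarith) hε.le
  have b4 : (Sᶜ.card : ℝ) * (ε / 2 ^ n) ≤ ε := by
    rw [mul_div_assoc', div_le_iff₀ hpow, mul_comm]
    exact mul_le_mul_of_nonneg_left (by linarith) hε.le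
  have b5 : (Sᶜ.card : ℝ) * (1 / 2 ^ n) = 1 - S.card / 2 ^ n := by
    rw [hcardU]
    field_simp
  rw [hcardS, abs_le]
  rw [mul_sub] at b1 b2
  rw [b5] at b2
  have b6 : (S.card : ℝ) * (1 / 2 ^ n) = S.card / 2 ^ n := by ring
  rw [b6] at b1
  constructor
  · linarith
  · linarith

end

end Run7.h61.JT
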